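import Pool.Agent.H938.CN.Val

/-!
# The curve: smoothness, closed points, the endomorphism
-/

set_option autoImplicit false

namespace Pool.Agent.H938.CN

open MvPolynomial

section

variable {k : Type} [Field k] {p : ℕ} {t : k}

theorem aeval_h {L : Type} [CommRing L] [Algebra k L] (v : Fin 4 → L) (i j : Fin 4) :
    aeval v (h p t (X i) (X j) : MvPolynomial (Fin 4) k) = h p t (v i) (v j) := by
  simp [h]

theorem aeval_poly {L : Type} [CommRing L] [Algebra k L] (v : Fin 4 → L) :
    aeval v (poly p t) = h p t (v 0) (v 1) * h p t (v 2) (v 3) - v 0 ^ p * v 2 ^ p := by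
  rw [poly, map_sub, map_mul, map_mul, aeval_h, aeval_h, map_pow, map_pow, aeval_X, aeval_X]

theorem h_zero {L : Type} [CommRing L] [Algebra k L] (hp2 : 2 ≤ p) (x : L) :
    h p t 0 x = x ^ p := by
  unfold h
  rw [zero_pow (by omega), zero_pow (by omega), mul_zero, smul_zero, sub_zero, add_zero]

theorem h_eq {L : Type} [Field L] [Algebra k L] (hp2 : 2 ≤ p) {u : L} (hu : u ≠ 0) (x : L) :
    h p t u x = u ^ p * ((x / u) ^ p - x / u + algebraMap k L t) := by
  obtain ⟨q, rfl⟩ := Nat.exists_eq_add_of_le' (show 1 ≤ p by omega)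
  unfold h
  rw [Algebra.smul_def, div_pow, Nat.add_sub_cancel]
  field_simp
  ring

theorem points_of_aniso (hp2 : 2 ≤ p) (H : Aniso p t) : Points p t := by
  intro L _ _ _ v ⟨h1, h2, h3⟩
  rw [aeval_poly] at h3
  by_contra hn
  obtain ⟨H1, H2⟩ := H L hn
  have hne : ∀ u x : L, (u ≠ 0 ∨ x ≠ 0) → h p t u x ≠ 0 := by
    intro u x hux h0
    by_cases hu : u = 0
    · rw [hu, h_zero hp2] at h0
      rcases hux with h | h
      · exact h hu
      · exact h (pow_eq_zero_iff (by omega) |>.1 h0)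
    · rw [h_eq hp2 hu] at h0
      rcases mul_eq_zero.1 h0 with h | h
      · exact pow_ne_zero p hu h
      · exact H1 _ h
  have e1 := hne _ _ h1
  have e2 := hne _ _ h2
  have hu : v 0 ≠ 0 := by
    intro hu
    rw [hu, zero_pow (by omega), zero_mul, sub_zero] at h3
    rw [hu] at e1
    exact mul_ne_zero e1 e2 h3
  have hw : v 2 ≠ 0 := by
    intro hw
    rw [hw, zero_pow (by omega), mul_zero, sub_zero] at h3
    rw [hw] at e2
    exact mul_ne_zero e1 e2 h3
  refine H2 (v 1 / v 0) (v 3 / v 2) ?_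
  rw [h_eq hp2 hu, h_eq hp2 hw] at h3
  have h4 : v 0 ^ p * v 2 ^ p ≠ 0 := mul_ne_zero (pow_ne_zero p hu) (pow_ne_zero p hw)
  apply mul_left_cancel₀ h4
  linear_combination h3

section char

variable [CharP k p] [Fact p.Prime]

theorem h_frob {A : Type} [CommRing A] [Algebra k A] [CharP A p] (u x : A) :
    h p t (u ^ p) (x ^ p + t • u ^ p) = h p t u x ^ p := by
  have hp2 : 2 ≤ p := (Fact.out : p.Prime).two_le
  unfold h
  rw [add_pow_char (x ^ p) (t • u ^ p) , add_pow_char (x ^ p - x * u ^ (p - 1)) (t • u ^ p),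
    sub_pow_char, mul_pow, Algebra.smul_def, Algebra.smul_def, mul_pow]
  have h1 : (u ^ (p - 1)) ^ p = (u ^ p) ^ (p - 1) := by rw [← pow_mul, ← pow_mul, mul_comm]
  have h2 : u ^ p * (u ^ p) ^ (p - 1) = (u ^ p) ^ p := by
    rw [← pow_succ', Nat.sub_add_cancel (by omega)]
  rw [h1]
  linear_combination (-algebraMap k A t) * h2

theorem endo : Endo p t := by
  unfold Endo
  rw [aeval_poly]
  have hc : CharP (MvPolynomial (Fin 4) k) p := inferInstance
  have e0 : frob p t 0 = X 0 ^ p := rfl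
  have e1 : frob p t 1 = X 1 ^ p + t • X 0 ^ p := rfl
  have e2 : frob p t 2 = X 2 ^ p := rfl
  have e3 : frob p t 3 = X 3 ^ p + t • X 2 ^ p := rfl
  rw [e0, e1, e2, e3, h_frob, h_frob, poly, sub_pow_char, mul_pow, mul_pow]

theorem pderiv_h (i j : Fin 4) (hij : i ≠ j) :
    pderiv j (h p t (X i) (X j) : MvPolynomial (Fin 4) k) = - X i ^ (p - 1) := by
  have hp0 : ((p : ℕ) : MvPolynomial (Fin 4) k) = 0 := CharP.cast_eq_zero _ p
  unfold h
  simp only [map_add, map_sub, Derivation.leibniz, Derivation.leibniz_pow, Derivation.map_smul,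
    pderiv_X_self, pderiv_X_of_ne hij, smul_eq_mul, nsmul_eq_mul, mul_zero, smul_zero, mul_one,
    add_zero, zero_add]
  rw [hp0]
  ring

theorem pderiv_h_of_ne (i j l : Fin 4) (hi : i ≠ l) (hj : j ≠ l) :
    pderiv l (h p t (X i) (X j) : MvPolynomial (Fin 4) k) = 0 := by
  unfold h
  simp only [map_add, map_sub, Derivation.leibniz, Derivation.leibniz_pow, Derivation.map_smul,
    pderiv_X_of_ne hi, pderiv_X_of_ne hj, smul_eq_mul, mul_zero, smul_zero,
    add_zero, sub_zero]

theorem aeval_pderiv_one {L : Type} [Field L] [Algebra k L] (v : Fin 4 → L) :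
    aeval v (pderiv 1 (poly p t)) = - (v 0 ^ (p - 1) * h p t (v 2) (v 3)) := by
  unfold poly
  simp only [map_sub, Derivation.leibniz, Derivation.leibniz_pow,
    pderiv_h (p := p) (t := t) 0 1 (by decide), pderiv_h_of_ne (p := p) (t := t) 2 3 1 (by decide)
      (by decide), pderiv_X_of_ne (show (0 : Fin 4) ≠ 1 by decide),
    pderiv_X_of_ne (show (2 : Fin 4) ≠ 1 by decide), smul_eq_mul, smul_zero, mul_zero, zero_add,
    add_zero, sub_zero, map_mul, map_neg, map_pow, aeval_X, aeval_h]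
  ring

theorem aeval_pderiv_three {L : Type} [Field L] [Algebra k L] (v : Fin 4 → L) :
    aeval v (pderiv 3 (poly p t)) = - (v 2 ^ (p - 1) * h p t (v 0) (v 1)) := by
  unfold poly
  simp only [map_sub, Derivation.leibniz, Derivation.leibniz_pow,
    pderiv_h (p := p) (t := t) 2 3 (by decide), pderiv_h_of_ne (p := p) (t := t) 0 1 3 (by decide)
      (by decide), pderiv_X_of_ne (show (0 : Fin 4) ≠ 3 by decide),
    pderiv_X_of_ne (show (2 : Fin 4) ≠ 3 by decide), smul_eq_mul, smul_zero, mul_zero, zero_add,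
    add_zero, sub_zero, map_mul, map_neg, map_pow, aeval_X, aeval_h]
  ring

theorem smooth : Smooth p t := by
  intro L _ _ v ⟨h1, h2, h3⟩
  have hp2 : 2 ≤ p := (Fact.out : p.Prime).two_le
  rw [aeval_poly] at h3
  by_contra hcon
  push Not at hcon
  have e1 := hcon 1
  have e3 := hcon 3
  rw [aeval_pderiv_one, neg_eq_zero] at e1
  rw [aeval_pderiv_three, neg_eq_zero] at e3
  by_cases hu : v 0 = 0
  · have hx : v 1 ≠ 0 := h1.resolve_left (fun h => h hu)
    rw [hu, h_zero hp2] at h3 e3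
    rw [zero_pow (by omega), zero_mul, sub_zero] at h3
    have h4 : h p t (v 2) (v 3) = 0 := (mul_eq_zero.1 h3).resolve_left (pow_ne_zero p hx)
    have hw : v 2 = 0 :=
      pow_eq_zero_iff (by omega) |>.1 ((mul_eq_zero.1 e3).resolve_right (pow_ne_zero p hx))
    rw [hw, h_zero hp2] at h4
    exact (h2.resolve_left (fun h => h hw)) (pow_eq_zero_iff (by omega) |>.1 h4)
  · have h4 : h p t (v 2) (v 3) = 0 := (mul_eq_zero.1 e1).resolve_left (pow_ne_zero _ hu)
    rw [h4, mul_zero, zero_sub, neg_eq_zero] at h3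
    have hw : v 2 = 0 :=
      pow_eq_zero_iff (by omega) |>.1 ((mul_eq_zero.1 h3).resolve_left (pow_ne_zero p hu))
    rw [hw, h_zero hp2] at h4
    exact (h2.resolve_left (fun h => h hw)) (pow_eq_zero_iff (by omega) |>.1 h4)

end char

end

end Pool.Agent.H938.CN
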