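import Pool.Agent.H938.CN.Lin
import Pool.Agent.H938.CN.Geo
import Pool.Graph.R_pool_sql_team_seeded_f72693b1.W875.NK.Stmt
import Pool.Graph.R_pool_sql_team_seeded_f72693b1.W875.NK.Trace

/-!
# Algebraic endomorphisms of super realisations of the motive of the curve
-/

set_option autoImplicit false

namespace Pool.Agent.H938.CN

open CategoryTheory MonoidalCategory W875.NK.St

universe v u

variable {𝒩 : Type u} [Category.{v} 𝒩] [MonoidalCategory 𝒩] [SymmetricCategory 𝒩]
  [Preadditive 𝒩]

/-- `A` is an object with dual `B` of a preadditive symmetric monoidal category such that the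
endomorphisms of `A` are generated by a set `S` of endomorphisms whose traces are Euler
characteristics of coherent sheaves on the curve `C`. (For `A = perf_dg(C)` in the category of
noncommutative motives: `S` is the set of the classes of vector bundles `E` on `C × C`, and the
trace of the class of `E` is the Euler characteristic of the restriction of `E` to the
diagonal.) -/
structure IsMotive {k : Type} [Field k] (p : ℕ) (t : k) (A B : 𝒩) [ExactPairing A B]
    (S : Set (A ⟶ A)) : Prop where
  closure : AddSubgroup.closure S = ⊤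
  trace : ∀ f ∈ S, ∃ N : Sheaf p t, ∀ c : ℤ, IsChi N.D c → trace A B f = c • 𝟙 (𝟙_ 𝒩)

/-- The trace of an endomorphism `φ` of `A` on the even part of `ω(A)`. -/
noncomputable def evenTrace {K : Type} [Field K] (ω : SuperFunctor 𝒩 K) {A : 𝒩} (φ : A ⟶ A) : K :=
  LinearMap.trace K (ω.F.obj A) (ω.even A * (ω.F.map φ).hom)

/-- The super functor of the library's proof. -/
noncomputable def conv {K : Type} [Field K] (ω : SuperFunctor 𝒩 K) : W875.NK.SuperFunctor 𝒩 K where
  F := ω.F
  odd := ω.odd
  odd_idem X v := congrArg (fun f => f v) (ω.odd_idem X)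
  odd_nat := ω.odd_nat
  odd_unit v := by rw [ω.odd_unit]; rfl
  odd_tensor X Y v w := by
    have := ω.odd_tensor X Y v w
    rw [map_add]
    exact this
  braid X Y v w := by
    have := ω.braid X Y v w
    rw [map_sub, map_smul]
    exact this

theorem not_algebraic {k : Type} [Field k] {p : ℕ} [Fact p.Prime] [CharP k p] {t : k}
    (hE : Euler p t) (A B : 𝒩) [ExactPairing A B] (S : Set (A ⟶ A)) (h : IsMotive p t A B S)
    (K : Type) [Field K] [Algebra k K] (ω : SuperFunctor 𝒩 K) (φ : A ⟶ A)
    (hφ : evenTrace ω φ ≠ 0) :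
    ¬ ω.Algebraic A (ω.even A) ∧ ¬ ω.Algebraic A (ω.odd A) := by
  have hchar : CharP K p := charP_of_injective_algebraMap (algebraMap k K).injective p
  have hstr : ∀ f : A ⟶ A, LinearMap.trace K (ω.F.obj A)
      ((1 - (2 : K) • ω.odd A) * (ω.F.map f).hom) = 0 := by
    intro f
    have hf : f ∈ AddSubgroup.closure S := by rw [h.closure]; trivial
    induction hf using AddSubgroup.closure_induction with
    | mem f hf =>
      obtain ⟨N, hN⟩ := h.trace f hf
      obtain ⟨c, ⟨d, rfl⟩, hc⟩ := hE N
      have h1 := (conv ω).supertrace_eq A B (f := f) (c := p * d) (hN _ hc)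
      have h2 : (((p * d : ℤ)) : K) = 0 := by
        push_cast
        rw [CharP.cast_eq_zero K p, zero_mul]
      rw [h2] at h1
      exact h1
    | zero => rw [ω.F.map_zero, ModuleCat.hom_zero, mul_zero, map_zero]
    | add f g _ _ hf hg =>
      rw [ω.F.map_add, ModuleCat.hom_add, mul_add, map_add, hf, hg, add_zero]
    | neg f _ hf => rw [ω.F.map_neg, ModuleCat.hom_neg, mul_neg, map_neg, hf, neg_zero]
  have hidem := ω.odd_idem A
  have heven : ¬ ω.Algebraic A (ω.even A) := by
    intro hmem
    apply hφ
    have hle : Submodule.span K (Set.range fun f : A ⟶ A => (ω.F.map f).hom) ≤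
        LinearMap.ker (LinearMap.trace K (ω.F.obj A) ∘ₗ
          LinearMap.mulLeft K (1 - (2 : K) • ω.odd A) ∘ₗ
            LinearMap.mulRight K (ω.F.map φ).hom) := by
      rw [Submodule.span_le]
      rintro _ ⟨f, rfl⟩
      have h1 := hstr (φ ≫ f)
      rw [ω.F.map_comp, ModuleCat.hom_comp] at h1
      exact h1
    have h3 : LinearMap.trace K (ω.F.obj A)
        ((1 - (2 : K) • ω.odd A) * (ω.even A * (ω.F.map φ).hom)) = 0 := hle hmem
    have h4 : (1 - (2 : K) • ω.odd A) * ω.even A = ω.even A := by
      unfold SuperFunctor.even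
      rw [sub_mul, one_mul, mul_sub, smul_mul_assoc, smul_mul_assoc, hidem, mul_one, sub_self,
        sub_zero]
    rw [← mul_assoc, h4] at h3
    exact h3
  refine ⟨heven, fun hodd => heven ?_⟩
  have h1 : (1 : Module.End K (ω.F.obj A)) ∈
      Submodule.span K (Set.range fun f : A ⟶ A => (ω.F.map f).hom) := by
    refine Submodule.subset_span ⟨𝟙 A, ?_⟩
    change (ω.F.map (𝟙 A)).hom = 1
    rw [ω.F.map_id]
    rfl
  exact Submodule.sub_mem _ h1 hodd

end Pool.Agent.H938.CN
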