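import Mathlib

/-!
# The curve `(x ^ p - x + t) (y ^ p - y + t) = 1`: definitions
-/

set_option autoImplicit false

namespace Pool.Agent.H938.CN

open CategoryTheory MonoidalCategory

section curve

variable {k : Type} [Field k]

/-- The form `h(u, x) = x ^ p - x u ^ (p - 1) + t u ^ p`. -/
def h {A : Type} [Ring A] [Algebra k A] (p : ℕ) (t : k) (u x : A) : A :=
  x ^ p - x * u ^ (p - 1) + t • u ^ p

/-- The bihomogeneous polynomial `h(u, x) h(w, y) - u ^ p w ^ p` in the variables `u, x` (the
coordinates of the first projective line) and `w, y` (the ones of the second). In the affine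
coordinates `u = w = 1` its zero set is the curve `(x ^ p - x + t) (y ^ p - y + t) = 1`. -/
noncomputable def poly (p : ℕ) (t : k) : MvPolynomial (Fin 4) k :=
  h p t (MvPolynomial.X 0) (MvPolynomial.X 1) * h p t (MvPolynomial.X 2) (MvPolynomial.X 3)
    - MvPolynomial.X 0 ^ p * MvPolynomial.X 2 ^ p

/-- The coordinates `v = (u, x, w, y)` are the ones of a point of the curve `C`, with values in
the field `L`. -/
def OnCurve {L : Type} [Field L] [Algebra k L] (p : ℕ) (t : k) (v : Fin 4 → L) : Prop :=
  (v 0 ≠ 0 ∨ v 1 ≠ 0) ∧ (v 2 ≠ 0 ∨ v 3 ≠ 0) ∧ MvPolynomial.aeval v (poly p t) = 0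

/-- The curve `C` in the product of two projective lines is smooth (Jacobian criterion). -/
def Smooth (p : ℕ) (t : k) : Prop :=
  ∀ (L : Type) [Field L] [Algebra k L] (v : Fin 4 → L), OnCurve p t v →
    ∃ i, MvPolynomial.aeval v (MvPolynomial.pderiv i (poly p t)) ≠ 0

/-- All closed points of `C` have degree divisible by `p`: every finite extension of `k` over
which `C` has a point has degree divisible by `p`. -/
def Points (p : ℕ) (t : k) : Prop :=
  ∀ (L : Type) [Field L] [Algebra k L] [FiniteDimensional k L] (v : Fin 4 → L),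
    OnCurve p t v → p ∣ Module.finrank k L

/-- The coordinates of the map `(x, y) ↦ (x ^ p + t, y ^ p + t)`. -/
noncomputable def frob (p : ℕ) (t : k) : Fin 4 → MvPolynomial (Fin 4) k :=
  ![MvPolynomial.X 0 ^ p, MvPolynomial.X 1 ^ p + t • MvPolynomial.X 0 ^ p,
    MvPolynomial.X 2 ^ p, MvPolynomial.X 3 ^ p + t • MvPolynomial.X 2 ^ p]

/-- The map `(x, y) ↦ (x ^ p + t, y ^ p + t)`, which is purely inseparable of degree `p`, is an
endomorphism of `C`. -/
def Endo (p : ℕ) (t : k) : Prop :=
  MvPolynomial.aeval (frob p t) (poly p t) = poly p t ^ p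

/-- A coherent sheaf on `C`: a finitely generated graded module over the graded algebra of the
finite map `(x, y) ↦ x` from `C` to the projective line, that is over the algebra generated by
`u`, `x` and the functions `z j = h(u, x) y ^ j` of degree `p` (for `j ≤ p`). -/
structure Sheaf (p : ℕ) (t : k) where
  /-- the module -/
  T : Type
  [acg : AddCommGroup T]
  [mod : Module k T]
  /-- multiplication by `u` -/
  u : Module.End k T
  /-- multiplication by `x` -/
  x : Module.End k T
  /-- multiplication by `h(u, x) y ^ j` -/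
  z : ℕ → Module.End k T
  ux : u * x = x * u
  uz : ∀ j, j ≤ p → u * z j = z j * u
  xz : ∀ j, j ≤ p → x * z j = z j * x
  z_zero : z 0 = h p t u x
  z_last : z p = u ^ p + z 1 - t • z 0
  zz : ∀ i j i' j', i ≤ p → j ≤ p → i' ≤ p → j' ≤ p → i + j = i' + j' → z i * z j = z i' * z j'
  /-- the homogeneous pieces -/
  D : ℕ → Submodule k T
  fin : ∀ n, FiniteDimensional k (D n)
  internal : DirectSum.IsInternal D
  map_u : ∀ n, (D n).map u ≤ D (n + 1)
  map_x : ∀ n, (D n).map x ≤ D (n + 1)
  map_z : ∀ j, j ≤ p → ∀ n, (D n).map (z j) ≤ D (n + p)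
  gen : ∃ N, ∀ n, N ≤ n → D (n + 1) = (D n).map u ⊔ (D n).map x

attribute [instance] Sheaf.acg Sheaf.mod

/-- The Hilbert function of the graded vector space `D` is `r n + c` for large `n`. If `D`
presents a coherent sheaf on `C`, then `c` is its Euler characteristic. -/
def IsChi {T : Type} [AddCommGroup T] [Module k T] (D : ℕ → Submodule k T) (c : ℤ) : Prop :=
  ∃ r : ℤ, ∃ N : ℕ, ∀ n, N ≤ n → (Module.finrank k (D n) : ℤ) = r * n + c

/-- Every coherent sheaf on `C` has an Euler characteristic, which is divisible by `p`. -/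
def Euler (p : ℕ) (t : k) : Prop := ∀ N : Sheaf p t, ∃ c : ℤ, (p : ℤ) ∣ c ∧ IsChi N.D c

end curve

end Pool.Agent.H938.CN
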