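import Pool.Agent.H938.CN.Ops
import Pool.Graph.R_pool_sql_team_seeded_f72693b1.W875.NK.Spec

/-!
# Graded modules: submodules, quotients, shifts, Hilbert functions
-/

set_option autoImplicit false

namespace Pool.Agent.H938.CN

open Module Filter

/-- Eventually of the form `r n + c` with `p ∣ r` and `p ∣ c`. -/
def Lin (p : ℕ) (d : ℕ → ℕ) : Prop :=
  ∃ r c : ℤ, (p : ℤ) ∣ r ∧ (p : ℤ) ∣ c ∧ ∀ᶠ n : ℕ in atTop, (d n : ℤ) = r * n + c

theorem Lin.add {p : ℕ} {d e f : ℕ → ℕ} (hd : Lin p d) (he : Lin p e)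
    (h : ∀ᶠ n in atTop, d n + e n = f n) : Lin p f := by
  obtain ⟨r, c, hr, hc, h1⟩ := hd
  obtain ⟨r', c', hr', hc', h2⟩ := he
  refine ⟨r + r', c + c', dvd_add hr hr', dvd_add hc hc', ?_⟩
  filter_upwards [h1, h2, h] with n a b e
  rw [← e]; push_cast; rw [a, b]; ring

theorem Lin.of_shift {p : ℕ} {d : ℕ → ℕ} (D : ℕ) (h : Lin p fun n => d (D + n)) : Lin p d := by
  obtain ⟨r, c, hr, hc, h1⟩ := h
  refine ⟨r, c - r * D, hr, dvd_sub hc (Dvd.dvd.mul_right hr _), ?_⟩
  rw [eventually_atTop] at h1 ⊢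
  obtain ⟨N, h1⟩ := h1
  refine ⟨N + D, fun n hn => ?_⟩
  have := h1 (n - D) (by omega)
  beta_reduce at this
  rw [show D + (n - D) = n by omega] at this
  rw [this, Nat.cast_sub (by omega)]; ring

theorem Lin.const {p : ℕ} {d : ℕ → ℕ} {c : ℕ} (hc : p ∣ c) (h : ∀ᶠ n in atTop, d n = c) :
    Lin p d := by
  refine ⟨0, c, dvd_zero _, by exact_mod_cast hc, ?_⟩
  filter_upwards [h] with n hn
  rw [hn]; ring

/-- A sequence of natural numbers that is eventually antitone is eventually constant. -/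
theorem eventually_const (d : ℕ → ℕ) (N : ℕ) (h : ∀ n, N ≤ n → d (n + 1) ≤ d n) :
    ∃ n₀, N ≤ n₀ ∧ ∀ n, n₀ ≤ n → d n = d n₀ := by
  have hmono : ∀ n m, N ≤ n → n ≤ m → d m ≤ d n := by
    intro n m hn hnm
    induction m, hnm using Nat.le_induction with
    | base => exact le_rfl
    | succ m hm ih => exact (h m (by omega)).trans ih
  have hex : ∃ v, ∃ n, N ≤ n ∧ d n = v := ⟨_, N, le_rfl, rfl⟩
  classical
  obtain ⟨n₀, hn₀, hv⟩ := Nat.find_spec hex
  refine ⟨n₀, hn₀, fun n hn => le_antisymm (hmono n₀ n hn₀ hn) ?_⟩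
  rw [hv]
  exact Nat.find_min' hex ⟨n, by omega, rfl⟩

theorem bound_of_eventually (d : ℕ → ℕ) (a : ℕ) (c : ℤ)
    (h : ∀ᶠ n : ℕ in atTop, (d n : ℤ) = a * n + c) : ∃ C : ℕ, ∀ n, d n ≤ a * n + C := by
  obtain ⟨n₀, hn₀⟩ := eventually_atTop.1 h
  refine ⟨c.toNat + ∑ i ∈ Finset.range n₀, d i, fun n => ?_⟩
  rcases lt_or_ge n n₀ with h | h
  · have := Finset.single_le_sum (f := fun i => d i) (fun i _ => Nat.zero_le _)
      (Finset.mem_range.2 h)
    omega
  · have h1 := hn₀ n h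
    have h2 : (d n : ℤ) ≤ ((a * n : ℕ) : ℤ) + c.toNat := by
      rw [h1]; push_cast
      have := Int.self_le_toNat c
      omega
    have h3 : d n ≤ a * n + c.toNat := by exact_mod_cast h2
    omega

/-- A graded module over the algebra of the finite map from the curve to the projective line. -/
structure GM (k : Type) [Field k] (p : ℕ) (t : k) where
  pos : 0 < p
  T : Type
  [acg : AddCommGroup T]
  [mod : Module k T]
  u : End k T
  x : End k T
  z : ℕ → End k T
  ux : u * x = x * u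
  uz : ∀ j, j ≤ p → u * z j = z j * u
  xz : ∀ j, j ≤ p → x * z j = z j * x
  z_zero : z 0 = h p t u x
  z_last : z p = u ^ p + z 1 - t • z 0
  zz : ∀ i j i' j', i ≤ p → j ≤ p → i' ≤ p → j' ≤ p → i + j = i' + j' → z i * z j = z i' * z j'
  D : ℕ → Submodule k T
  fin : ∀ n, FiniteDimensional k (D n)
  indep : iSupIndep D
  map_u : ∀ n, (D n).map u ≤ D (n + 1)
  map_x : ∀ n, (D n).map x ≤ D (n + 1)
  map_z : ∀ j, j ≤ p → ∀ n, (D n).map (z j) ≤ D (n + p)
  gen : ∃ N, ∀ n, N ≤ n → D (n + 1) ≤ (D n).map u ⊔ (D n).map x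

attribute [instance] GM.acg GM.mod GM.fin

namespace GM

variable {k : Type} [Field k] {p : ℕ} {t : k} (M : GM k p t)

/-- The dimension of the piece of degree `n`. -/
noncomputable def dim (n : ℕ) : ℕ := finrank k (M.D n)

/-- Graded submodules. -/
structure Stable (K : ℕ → Submodule k M.T) : Prop where
  le : ∀ n, K n ≤ M.D n
  u : ∀ n, (K n).map M.u ≤ K (n + 1)
  x : ∀ n, (K n).map M.x ≤ K (n + 1)
  z : ∀ j, j ≤ p → ∀ n, (K n).map (M.z j) ≤ K (n + p)

/-- Generated in degree `0`. -/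
def Gen0 : Prop := ∀ n, M.D (n + 1) ≤ (M.D n).map M.u ⊔ (M.D n).map M.x

/-- The shift. -/
def shift (d : ℕ) : GM k p t where
  pos := M.pos
  T := M.T
  u := M.u
  x := M.x
  z := M.z
  ux := M.ux
  uz := M.uz
  xz := M.xz
  z_zero := M.z_zero
  z_last := M.z_last
  zz := M.zz
  D n := M.D (d + n)
  fin n := M.fin (d + n)
  indep := M.indep.comp (add_right_injective d)
  map_u n := M.map_u (d + n)
  map_x n := M.map_x (d + n)
  map_z j hj n := by rw [← add_assoc]; exact M.map_z j hj (d + n)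
  gen := by
    obtain ⟨N, h⟩ := M.gen
    exact ⟨N, fun n hn => h (d + n) (by omega)⟩

theorem exists_shift_gen0 : ∃ d, ∀ e, d ≤ e → (M.shift e).Gen0 := by
  obtain ⟨N, h⟩ := M.gen
  exact ⟨N, fun E hE n => h (E + n) (by omega)⟩

/-- The submodule given by a stable family that is generated from some degree on. -/
def sub (K : ℕ → Submodule k M.T) (hK : M.Stable K)
    (hg : ∃ N, ∀ n, N ≤ n → K (n + 1) ≤ (K n).map M.u ⊔ (K n).map M.x) : GM k p t where
  pos := M.pos
  T := M.T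
  u := M.u
  x := M.x
  z := M.z
  ux := M.ux
  uz := M.uz
  xz := M.xz
  z_zero := M.z_zero
  z_last := M.z_last
  zz := M.zz
  D := K
  fin n := Submodule.finiteDimensional_of_le (hK.le n)
  indep := M.indep.mono hK.le
  map_u := hK.u
  map_x := hK.x
  map_z := hK.z
  gen := hg

/-- The total submodule of a stable family. -/
def tot (K : ℕ → Submodule k M.T) : Submodule k M.T := ⨆ n, K n

theorem tot_comap {K : ℕ → Submodule k M.T} {f : End k M.T} {g : ℕ → ℕ}
    (h : ∀ n, (K n).map f ≤ K (g n)) : M.tot K ≤ (M.tot K).comap f := by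
  refine iSup_le fun n => ?_
  rw [← Submodule.map_le_iff_le_comap]
  exact (h n).trans (le_iSup K (g n))

theorem mem_of_mem_tot {K : ℕ → Submodule k M.T} (hK : ∀ n, K n ≤ M.D n) {n : ℕ} {m : M.T}
    (hm : m ∈ M.D n) (ht : m ∈ M.tot K) : m ∈ K n := by
  have h1 : M.tot K ≤ K n ⊔ ⨆ j, ⨆ _ : j ≠ n, M.D j := by
    refine iSup_le fun j => ?_
    by_cases hj : j = n
    · subst hj; exact le_sup_left
    · exact le_sup_of_le_right ((hK j).trans (le_iSup₂ (f := fun j (_ : j ≠ n) => M.D j) j hj))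
  obtain ⟨a, ha, b, hb, hab⟩ := Submodule.mem_sup.1 (h1 ht)
  have h2 : b ∈ M.D n := by
    have : b = m - a := by rw [← hab]; abel
    rw [this]
    exact Submodule.sub_mem _ hm (hK n ha)
  have h3 := (Submodule.disjoint_def.1 (M.indep n)) b h2 hb
  rw [← hab, h3, add_zero]
  exact ha

/-- The operator induced on the quotient. -/
noncomputable def qop (K : ℕ → Submodule k M.T) (f : End k M.T) (g : ℕ → ℕ)
    (h : ∀ n, (K n).map f ≤ K (g n)) : End k (M.T ⧸ M.tot K) :=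
  (M.tot K).mapQ (M.tot K) f (M.tot_comap h)

theorem indep_map {K : ℕ → Submodule k M.T} (hK : ∀ n, K n ≤ M.D n) :
    iSupIndep fun n => (M.D n).map (M.tot K).mkQ := by
  intro n
  rw [Submodule.disjoint_def]
  rintro _ ⟨d, hd, rfl⟩ hv
  have h1 : (⨆ j, ⨆ _ : j ≠ n, (M.D j).map (M.tot K).mkQ) =
      (⨆ j, ⨆ _ : j ≠ n, M.D j).map (M.tot K).mkQ := by
    simp only [Submodule.map_iSup]
  rw [h1] at hv
  obtain ⟨e, he, hde⟩ := hv
  have h2 : d - e ∈ M.tot K := by
    rw [← Submodule.Quotient.mk_eq_zero, Submodule.Quotient.mk_sub, sub_eq_zero]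
    exact hde.symm
  have h3 : M.tot K ≤ K n ⊔ ⨆ j, ⨆ _ : j ≠ n, M.D j := by
    refine iSup_le fun j => ?_
    by_cases hj : j = n
    · subst hj; exact le_sup_left
    · exact le_sup_of_le_right ((hK j).trans (le_iSup₂ (f := fun j (_ : j ≠ n) => M.D j) j hj))
  obtain ⟨a, ha, b, hb, hab⟩ := Submodule.mem_sup.1 (h3 h2)
  have h4 : d - a = b + e := by
    have : d = a + b + e := by rw [hab]; abel
    rw [this]; abel
  have h5 : d - a ∈ M.D n := Submodule.sub_mem _ hd (hK n ha)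
  have h6 : d - a ∈ ⨆ j, ⨆ _ : j ≠ n, M.D j := by rw [h4]; exact Submodule.add_mem _ hb he
  have h7 := (Submodule.disjoint_def.1 (M.indep n)) _ h5 h6
  rw [Submodule.mkQ_apply, Submodule.Quotient.mk_eq_zero]
  rw [sub_eq_zero] at h7
  rw [h7]
  exact (le_iSup K n) ha

/-- The quotient by a stable family. -/
noncomputable def quot (K : ℕ → Submodule k M.T) (hK : M.Stable K) : GM k p t where
  pos := M.pos
  T := M.T ⧸ M.tot K
  u := M.qop K M.u (fun n => n + 1) hK.u
  x := M.qop K M.x (fun n => n + 1) hK.x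
  z j := if hj : j ≤ p then M.qop K (M.z j) (fun n => n + p) (hK.z j hj) else 0
  ux := by
    refine LinearMap.ext fun m => ?_
    obtain ⟨m, rfl⟩ := Submodule.mkQ_surjective _ m
    exact congrArg (fun f => (M.tot K).mkQ (f m)) M.ux
  uz j hj := by
    rw [dif_pos hj]
    refine LinearMap.ext fun m => ?_
    obtain ⟨m, rfl⟩ := Submodule.mkQ_surjective _ m
    exact congrArg (fun f => (M.tot K).mkQ (f m)) (M.uz j hj)
  xz j hj := by
    rw [dif_pos hj]
    refine LinearMap.ext fun m => ?_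
    obtain ⟨m, rfl⟩ := Submodule.mkQ_surjective _ m
    exact congrArg (fun f => (M.tot K).mkQ (f m)) (M.xz j hj)
  z_zero := by
    rw [dif_pos (Nat.zero_le p)]
    have hpow : ∀ (f : End k M.T) (g : ℕ → ℕ) (hf : ∀ n, (K n).map f ≤ K (g n)) (i : ℕ) (m : M.T),
        ((M.qop K f g hf) ^ i) ((M.tot K).mkQ m) = (M.tot K).mkQ ((f ^ i) m) := by
      intro f g hf i m
      induction i with
      | zero => rfl
      | succ i ih =>
        rw [pow_succ', pow_succ', Module.End.mul_apply, Module.End.mul_apply, ih]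
        rfl
    refine LinearMap.ext fun m => ?_
    obtain ⟨m, rfl⟩ := Submodule.mkQ_surjective _ m
    have h1 := congrArg (fun f => (M.tot K).mkQ (f m)) M.z_zero
    unfold h at h1 ⊢
    simp only [LinearMap.add_apply, LinearMap.sub_apply, LinearMap.smul_apply, map_add, map_sub,
      map_smul, Module.End.mul_apply] at h1 ⊢
    rw [hpow, hpow, hpow]
    exact h1
  z_last := by
    rw [dif_pos le_rfl, dif_pos (Nat.zero_le p), dif_pos (show 1 ≤ p from M.pos)]
    have hpow : ∀ (f : End k M.T) (g : ℕ → ℕ) (hf : ∀ n, (K n).map f ≤ K (g n)) (i : ℕ) (m : M.T),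
        ((M.qop K f g hf) ^ i) ((M.tot K).mkQ m) = (M.tot K).mkQ ((f ^ i) m) := by
      intro f g hf i m
      induction i with
      | zero => rfl
      | succ i ih =>
        rw [pow_succ', pow_succ', Module.End.mul_apply, Module.End.mul_apply, ih]
        rfl
    refine LinearMap.ext fun m => ?_
    obtain ⟨m, rfl⟩ := Submodule.mkQ_surjective _ m
    have h1 := congrArg (fun f => (M.tot K).mkQ (f m)) M.z_last
    simp only [LinearMap.add_apply, LinearMap.sub_apply, LinearMap.smul_apply, map_add, map_sub,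
      map_smul] at h1 ⊢
    rw [hpow]
    exact h1
  zz i j i' j' hi hj hi' hj' hij := by
    rw [dif_pos hi, dif_pos hj, dif_pos hi', dif_pos hj']
    refine LinearMap.ext fun m => ?_
    obtain ⟨m, rfl⟩ := Submodule.mkQ_surjective _ m
    exact congrArg (fun f => (M.tot K).mkQ (f m)) (M.zz i j i' j' hi hj hi' hj' hij)
  D n := (M.D n).map (M.tot K).mkQ
  fin n := inferInstance
  indep := M.indep_map hK.le
  map_u n := by
    rintro _ ⟨_, ⟨m, hm, rfl⟩, rfl⟩
    exact ⟨M.u m, M.map_u n ⟨m, hm, rfl⟩, rfl⟩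
  map_x n := by
    rintro _ ⟨_, ⟨m, hm, rfl⟩, rfl⟩
    exact ⟨M.x m, M.map_x n ⟨m, hm, rfl⟩, rfl⟩
  map_z j hj n := by
    rw [dif_pos hj]
    rintro _ ⟨_, ⟨m, hm, rfl⟩, rfl⟩
    exact ⟨M.z j m, M.map_z j hj n ⟨m, hm, rfl⟩, rfl⟩
  gen := by
    obtain ⟨N, hN⟩ := M.gen
    refine ⟨N, fun n hn => ?_⟩
    rintro _ ⟨m, hm, rfl⟩
    obtain ⟨_, ⟨a, ha, rfl⟩, _, ⟨b, hb, rfl⟩, rfl⟩ := Submodule.mem_sup.1 (hN n hn hm)
    rw [map_add]
    exact Submodule.add_mem_sup ⟨_, ⟨a, ha, rfl⟩, rfl⟩ ⟨_, ⟨b, hb, rfl⟩, rfl⟩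

section quotients

variable {M}
variable {K : ℕ → Submodule k M.T} (hK : M.Stable K)

include hK in
theorem quot_mk_eq_zero {n : ℕ} {m : M.T} (hm : m ∈ M.D n) :
    (M.tot K).mkQ m = 0 ↔ m ∈ K n := by
  rw [Submodule.mkQ_apply, Submodule.Quotient.mk_eq_zero]
  exact ⟨fun h => M.mem_of_mem_tot hK.le hm h, fun h => (le_iSup K n) h⟩

include hK in
theorem dim_quot (n : ℕ) : (M.quot K hK).dim n + finrank k (K n) = M.dim n := by
  let f : M.D n →ₗ[k] (M.T ⧸ M.tot K) := (M.tot K).mkQ.domRestrict (M.D n)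
  have h1 := LinearMap.finrank_range_add_finrank_ker f
  have h2 : LinearMap.range f = (M.D n).map (M.tot K).mkQ := LinearMap.range_domRestrict _ _
  have h3 : LinearMap.ker f = (K n).comap (M.D n).subtype := by
    ext m
    rw [LinearMap.mem_ker, Submodule.mem_comap]
    exact quot_mk_eq_zero hK m.2
  have h4 : finrank k (LinearMap.ker f) = finrank k (K n) := by
    rw [h3]
    exact LinearEquiv.finrank_eq (Submodule.comapSubtypeEquivOfLe (hK.le n))
  rw [h4, h2] at h1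
  exact h1

include hK in
theorem gen0_quot (hM : M.Gen0) : (M.quot K hK).Gen0 := by
  intro n
  rintro _ ⟨m, hm, rfl⟩
  obtain ⟨_, ⟨a, ha, rfl⟩, _, ⟨b, hb, rfl⟩, rfl⟩ := Submodule.mem_sup.1 (hM n hm)
  rw [map_add]
  exact Submodule.add_mem_sup ⟨_, ⟨a, ha, rfl⟩, rfl⟩ ⟨_, ⟨b, hb, rfl⟩, rfl⟩

theorem quot_u (m : M.T) : (M.quot K hK).u ((M.tot K).mkQ m) = (M.tot K).mkQ (M.u m) := rfl

theorem quot_x (m : M.T) : (M.quot K hK).x ((M.tot K).mkQ m) = (M.tot K).mkQ (M.x m) := rfl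

end quotients

end GM

end Pool.Agent.H938.CN
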