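import Pool.Agent.H938.CN.Val

/-!
# Purely inseparable extensions of the base field
-/

set_option autoImplicit false

namespace Pool.Agent.H938.CN

open Module

/-- The sum of `t ^ (p ^ i)` over `i < n`. -/
def sn {A : Type} [CommRing A] (p : ℕ) (t : A) : ℕ → A
  | 0 => 0
  | n + 1 => sn p t n + t ^ p ^ n

theorem sn_pow {A : Type} [CommRing A] (p : ℕ) [Fact p.Prime] [CharP A p] (t : A) (n : ℕ) :
    sn p t n ^ p - sn p t n = t ^ p ^ n - t := by
  induction n with
  | zero =>
    have hp : p ≠ 0 := (Fact.out : p.Prime).ne_zero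
    simp [sn, hp]
  | succ n ih =>
    rw [sn, add_pow_char, ← pow_mul, ← pow_succ]
    linear_combination ih

theorem shift_eq {A : Type} [CommRing A] (p : ℕ) [Fact p.Prime] [CharP A p] (t x : A) (n : ℕ) :
    (x + sn p t n) ^ p - (x + sn p t n) + t = x ^ p - x + t ^ p ^ n := by
  rw [add_pow_char]
  linear_combination sn_pow p t n

theorem aniso_insep (p : ℕ) [Fact p.Prime] (k k₁ : Type) [Field k] [Field k₁] [Algebra k k₁]
    [IsPurelyInseparable k k₁] [CharP k p] {t : k} (H : Aniso p t) :
    Aniso p (algebraMap k k₁ t) := by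
  intro L _ _ _ hn
  have hp1 : CharP k₁ p := charP_of_injective_algebraMap (algebraMap k k₁).injective p
  have hp2 : CharP L p := charP_of_injective_algebraMap (algebraMap k₁ L).injective p
  have hE : ExpChar k p := ExpChar.prime Fact.out
  have hEL : ExpChar L p := ExpChar.prime Fact.out
  have hsep : Algebra.IsSeparable k₁ L := separable_of_degree p k₁ L hn
  let : Algebra k L := ((algebraMap k₁ L).comp (algebraMap k k₁)).toAlgebra
  have htow : IsScalarTower k k₁ L := IsScalarTower.of_algebraMap_eq (fun _ => rfl)
  have halg1 : Algebra.IsAlgebraic k k₁ := inferInstance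
  have halg : Algebra.IsAlgebraic k L := Algebra.IsAlgebraic.trans k k₁ L
  have hrank : Module.rank k (separableClosure k L) = Module.rank k₁ L := by
    have h1 := Field.sepDegree_eq_of_isPurelyInseparable_of_isSeparable k k₁ L
    exact h1
  have hfr : finrank k (separableClosure k L) = finrank k₁ L := by
    rw [finrank, finrank, hrank]
  have hfin : FiniteDimensional k (separableClosure k L) := by
    refine Module.finite_of_finrank_pos ?_
    rw [hfr]
    exact finrank_pos
  have hEE : ExpChar (separableClosure k L) p := by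
    have : CharP (separableClosure k L) p :=
      charP_of_injective_algebraMap (algebraMap k (separableClosure k L)).injective p
    exact ExpChar.prime Fact.out
  have hEc : CharP (separableClosure k L) p :=
    charP_of_injective_algebraMap (algebraMap k (separableClosure k L)).injective p
  obtain ⟨H1, H2⟩ := H (separableClosure k L) (by rw [hfr]; exact hn)
  -- a power of every element is in the separable closure
  have hpow : ∀ x : L, ∃ n, ∀ m, n ≤ m → ∃ y : separableClosure k L, (y : L) = x ^ p ^ m := by
    intro x
    obtain ⟨n, y, hy⟩ := IsPurelyInseparable.pow_mem (separableClosure k L) p x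
    refine ⟨n, fun m hm => ⟨y ^ p ^ (m - n), ?_⟩⟩
    have hy' : (y : L) = x ^ p ^ n := hy
    push_cast
    rw [hy', ← pow_mul, ← pow_add, Nat.add_sub_cancel' hm]
  set T : separableClosure k L := algebraMap k _ t with hT
  have hTL : (T : L) = algebraMap k₁ L (algebraMap k k₁ t) := rfl
  have key : ∀ (x : L) (m : ℕ) (y : separableClosure k L), (y : L) = x ^ p ^ m →
      (((y + sn p T m) ^ p - (y + sn p T m) + T : separableClosure k L) : L) =
        (x ^ p - x + algebraMap k₁ L (algebraMap k k₁ t)) ^ p ^ m := by
    intro x m y hy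
    rw [shift_eq p T y m]
    push_cast
    rw [hy, hTL, add_pow_char_pow, sub_pow_char_pow, ← pow_mul, ← pow_mul, mul_comm]
  constructor
  · intro x hx
    obtain ⟨n, hn'⟩ := hpow x
    obtain ⟨y, hy⟩ := hn' n le_rfl
    refine H1 (y + sn p T n) (Subtype.ext ?_)
    change (((y + sn p T n) ^ p - (y + sn p T n) + T : separableClosure k L) : L) = 0
    rw [key x n y hy, hx, zero_pow (pow_ne_zero n (Fact.out : p.Prime).ne_zero)]
  · intro x x' hx
    obtain ⟨n, hn1⟩ := hpow x
    obtain ⟨n', hn2⟩ := hpow x'
    obtain ⟨y, hy⟩ := hn1 (max n n') (le_max_left _ _)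
    obtain ⟨y', hy'⟩ := hn2 (max n n') (le_max_right _ _)
    refine H2 (y + sn p T (max n n')) (y' + sn p T (max n n')) (Subtype.ext ?_)
    change (((y + sn p T (max n n')) ^ p - (y + sn p T (max n n')) + T : separableClosure k L) : L)
      * (((y' + sn p T (max n n')) ^ p - (y' + sn p T (max n n')) + T :
        separableClosure k L) : L) = 1
    rw [key x _ y hy, key x' _ y' hy', ← mul_pow, hx, one_pow]

end Pool.Agent.H938.CN
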