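import Pool.Agent.H938.CN.Loc

/-!
# Modules killed by `u`, and modules on which `u` is injective
-/

set_option autoImplicit false

namespace Pool.Agent.H938.CN

open Module Filter

namespace GM

variable {k : Type} [Field k] {p : ℕ} {t : k}

/-- Modules killed by `u` and generated by `x` from degree `N` on. -/
theorem kill (H : Aniso p t) (hp2 : 2 ≤ p) (M : GM k p t) (hu : ∀ n, ∀ m ∈ M.D n, M.u m = 0)
    (N : ℕ) (hgen : ∀ n, N ≤ n → M.D (n + 1) ≤ (M.D n).map M.x) :
    ∃ q, p ∣ q ∧ (∀ n, N ≤ n → q ≤ M.dim n) ∧ (∀ n, N ≤ n → M.dim (n + 1) ≤ M.dim n) ∧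
      ∀ᶠ n in atTop, M.dim n = q := by
  have hdec : ∀ n, N ≤ n → M.dim (n + 1) ≤ M.dim n := by
    intro n hn
    have h1 : finrank k (M.D (n + 1)) ≤ finrank k ((M.D n).map M.x) :=
      Submodule.finrank_mono (hgen n hn)
    exact h1.trans (Submodule.finrank_map_le _ _)
  obtain ⟨n₀, hn₀, h⟩ := eventually_const M.dim N hdec
  have hmono : ∀ n m, N ≤ n → n ≤ m → M.dim m ≤ M.dim n := by
    intro n m hn hnm
    induction m, hnm using Nat.le_induction with
    | base => exact le_rfl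
    | succ m hm ih => exact (hdec m (hn.trans hm)).trans ih
  refine ⟨M.dim n₀, ?_, ?_, hdec, ?_⟩
  · refine M.dvd_of_x H hp2 hu (n₀ := n₀) ⟨?_, fun n hn m hm => M.map_x n ⟨m, hm, rfl⟩, ?_⟩
    · intro n hn m hm h0
      have h1 : M.D (n + 1) = (M.D n).map M.x :=
        le_antisymm (hgen n (hn₀.trans hn)) (M.map_x n)
      have h2 : finrank k ((M.D n).map M.x) = finrank k (M.D n) := by
        rw [← h1]
        change M.dim (n + 1) = M.dim n
        rw [h n hn, h (n + 1) (by omega)]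
      let f : M.D n →ₗ[k] M.T := M.x.domRestrict (M.D n)
      have h3 := LinearMap.finrank_range_add_finrank_ker f
      have h4 : LinearMap.range f = (M.D n).map M.x := LinearMap.range_domRestrict _ _
      rw [h4, h2] at h3
      have h5 : finrank k (LinearMap.ker f) = 0 := by omega
      have h6 : LinearMap.ker f = ⊥ := Submodule.finrank_eq_zero.1 h5
      have h7 : (⟨m, hm⟩ : M.D n) ∈ LinearMap.ker f := h0
      rw [h6, Submodule.mem_bot] at h7
      exact congrArg Subtype.val h7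
    · intro n hn m hm
      obtain ⟨v, hv, hvm⟩ := hgen n (hn₀.trans hn) hm
      exact ⟨v, hv, hvm⟩
  · intro n hn
    rcases le_total n n₀ with h' | h'
    · exact hmono n n₀ hn h'
    · rw [h n h']
  · exact eventually_atTop.2 ⟨n₀, h⟩

theorem kill_gen (M : GM k p t) (hu : ∀ n, ∀ m ∈ M.D n, M.u m = 0) {n : ℕ}
    (h : M.D (n + 1) ≤ (M.D n).map M.u ⊔ (M.D n).map M.x) : M.D (n + 1) ≤ (M.D n).map M.x := by
  refine h.trans (sup_le ?_ le_rfl)
  rintro _ ⟨m, hm, rfl⟩
  rw [hu n m hm]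
  exact Submodule.zero_mem _

theorem kill_lin (H : Aniso p t) (hp2 : 2 ≤ p) (M : GM k p t)
    (hu : ∀ n, ∀ m ∈ M.D n, M.u m = 0) : Lin p M.dim := by
  obtain ⟨N, hN⟩ := M.gen
  obtain ⟨q, hq, -, -, h⟩ := kill H hp2 M hu N (fun n hn => M.kill_gen hu (hN n hn))
  exact Lin.const hq h

/-- The family `u M`. -/
def ufam (M : GM k p t) : ℕ → Submodule k M.T
  | 0 => ⊥
  | n + 1 => (M.D n).map M.u

theorem ufam_stable (M : GM k p t) : M.Stable M.ufam where
  le n := by
    cases n with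
    | zero => exact bot_le
    | succ n => exact M.map_u n
  u n := by
    cases n with
    | zero => simp [ufam]
    | succ n =>
      rintro _ ⟨_, ⟨m, hm, rfl⟩, rfl⟩
      exact ⟨M.u m, M.map_u n ⟨m, hm, rfl⟩, rfl⟩
  x n := by
    cases n with
    | zero => simp [ufam]
    | succ n =>
      rintro _ ⟨_, ⟨m, hm, rfl⟩, rfl⟩
      exact ⟨M.x m, M.map_x n ⟨m, hm, rfl⟩, congrArg (fun f => f m) M.ux⟩
  z j hj n := by
    cases n with
    | zero => simp [ufam]
    | succ n =>
      rintro _ ⟨_, ⟨m, hm, rfl⟩, rfl⟩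
      rw [show n + 1 + p = (n + p) + 1 by omega]
      exact ⟨M.z j m, M.map_z j hj n ⟨m, hm, rfl⟩, congrArg (fun f => f m) (M.uz j hj)⟩

/-- The quotient by `u`. -/
noncomputable def qu (M : GM k p t) : GM k p t := M.quot M.ufam M.ufam_stable

theorem qu_kill (M : GM k p t) : ∀ n, ∀ m ∈ M.qu.D n, M.qu.u m = 0 := by
  rintro n _ ⟨m, hm, rfl⟩
  change (M.tot M.ufam).mkQ (M.u m) = 0
  rw [Submodule.mkQ_apply, Submodule.Quotient.mk_eq_zero]
  have h1 : M.u m ∈ M.ufam (n + 1) := ⟨m, hm, rfl⟩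
  exact (le_iSup M.ufam (n + 1)) h1

theorem dim_qu_zero (M : GM k p t) : M.qu.dim 0 = M.dim 0 := by
  have := dim_quot M.ufam_stable 0
  rw [show M.ufam 0 = ⊥ from rfl, finrank_bot, add_zero] at this
  exact this

theorem dim_qu_succ (M : GM k p t) {n : ℕ} (hz : ∀ m ∈ M.D n, M.u m = 0 → m = 0) :
    M.qu.dim (n + 1) + M.dim n = M.dim (n + 1) := by
  have h1 := dim_quot M.ufam_stable (n + 1)
  have h2 : finrank k (M.ufam (n + 1)) = finrank k (M.D n) := by
    let f : M.D n →ₗ[k] M.T := M.u.domRestrict (M.D n)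
    have h4 : LinearMap.range f = (M.D n).map M.u := LinearMap.range_domRestrict _ _
    have h5 : Function.Injective f := by
      rw [injective_iff_map_eq_zero]
      intro m hm
      exact Subtype.ext (hz m m.2 hm)
    have h6 := LinearMap.finrank_range_of_inj h5
    rw [h4] at h6
    exact h6
  rw [h2] at h1
  exact h1

/-- If `u` is injective: the dimension is eventually `q n + c`, `p ∣ q`, and `p ∣ c` if
`q = 0`. -/
theorem uinj (H : Aniso p t) (hp2 : 2 ≤ p) (M : GM k p t)
    (hz : ∀ n, ∀ m ∈ M.D n, M.u m = 0 → m = 0) (N : ℕ)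
    (hgen : ∀ n, N ≤ n → M.qu.D (n + 1) ≤ (M.qu.D n).map M.qu.x) :
    ∃ (q : ℕ) (c : ℤ), p ∣ q ∧ (q = 0 → (p : ℤ) ∣ c) ∧ (∀ n, N ≤ n → q ≤ M.qu.dim n) ∧
      ∀ᶠ n : ℕ in atTop, (M.dim n : ℤ) = q * n + c := by
  obtain ⟨q, hq, hle, -, hev⟩ := kill H hp2 M.qu M.qu_kill N hgen
  obtain ⟨N₁, hN₁⟩ := eventually_atTop.1 hev
  have hlin : ∀ n, (M.dim (N₁ + n) : ℤ) = q * n + M.dim N₁ := by
    intro n
    induction n with
    | zero => simp
    | succ n ih =>
      have := M.dim_qu_succ (hz (N₁ + n))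
      rw [hN₁ _ (by omega)] at this
      rw [← add_assoc, ← this]; push_cast; rw [ih]; ring
  refine ⟨q, M.dim N₁ - q * N₁, hq, ?_, hle, ?_⟩
  · rintro rfl
    simp only [Nat.cast_zero, zero_mul, sub_zero]
    have : p ∣ M.dim N₁ := by
      refine M.dvd_of_u H (n₀ := N₁) ⟨fun n _ => hz n, fun n _ m hm => M.map_u n ⟨m, hm, rfl⟩, ?_⟩
      intro n hn m hm
      have h1 : finrank k (M.D (n + 1)) ≤ finrank k ((M.D n).map M.u) := by
        have e1 : finrank k ((M.D n).map M.u) = finrank k (M.D n) := by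
          let f : M.D n →ₗ[k] M.T := M.u.domRestrict (M.D n)
          have h4 : LinearMap.range f = (M.D n).map M.u := LinearMap.range_domRestrict _ _
          have h5 : Function.Injective f := by
            rw [injective_iff_map_eq_zero]
            intro m hm
            exact Subtype.ext (hz n m m.2 hm)
          have h6 := LinearMap.finrank_range_of_inj h5
          rw [h4] at h6
          exact h6
        rw [e1]
        have e2 := M.dim_qu_succ (hz n)
        rw [hN₁ _ (by omega)] at e2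
        change M.dim (n + 1) ≤ M.dim n
        omega
      have h2 : (M.D n).map M.u = M.D (n + 1) :=
        Submodule.eq_of_le_of_finrank_le (M.map_u n) h1
      rw [← h2] at hm
      obtain ⟨v, hv, hvm⟩ := hm
      exact ⟨v, hv, hvm⟩
    exact_mod_cast this
  · refine eventually_atTop.2 ⟨N₁, fun n hn => ?_⟩
    obtain ⟨m, rfl⟩ := Nat.exists_eq_add_of_le hn
    rw [hlin]; push_cast; ring

end GM

end Pool.Agent.H938.CN
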