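import Pool.Agent.H938.CN.Main

/-!
# The Hilbert function of a graded module modulo `p`: the theorem
-/

set_option autoImplicit false

namespace Pool.Agent.H938.CN

open Module Filter

theorem finrank_iSup_le {k V : Type} [Field k] [AddCommGroup V] [Module k V]
    {s : ℕ} (K : Fin s → Submodule k V) [∀ i, FiniteDimensional k (K i)] :
    finrank k (⨆ i, K i : Submodule k V) ≤ ∑ i, finrank k (K i) := by
  classical
  have : ∀ T : Finset (Fin s), FiniteDimensional k (⨆ i ∈ T, K i : Submodule k V) ∧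
      finrank k (⨆ i ∈ T, K i : Submodule k V) ≤ ∑ i ∈ T, finrank k (K i) := by
    intro T
    induction T using Finset.induction_on with
    | empty =>
      have e : (⨆ i ∈ (∅ : Finset (Fin s)), K i) = ⊥ := by simp
      rw [e, finrank_bot]
      exact ⟨inferInstance, Nat.zero_le _⟩
    | insert a T ha ih =>
      obtain ⟨h1, h2⟩ := ih
      rw [Finset.iSup_insert, Finset.sum_insert ha]
      exact ⟨inferInstance, (Submodule.finrank_add_le_finrank_add_finrank _ _).trans (by omega)⟩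
  have h := (this Finset.univ).2
  have e : (⨆ i ∈ Finset.univ, K i) = ⨆ i, K i := by simp
  rw [e] at h
  exact h

namespace GM

variable {k : Type} [Field k] {p : ℕ} {t : k}

theorem iSup_cyc {s : ℕ} (M : GM k p t) (h0 : M.Gen0) (b : Fin s → M.T)
    (hb : M.D 0 ≤ Submodule.span k (Set.range b)) (n : ℕ) : M.D n ≤ ⨆ i, M.cyc (b i) n := by
  induction n with
  | zero =>
    refine hb.trans ?_
    rw [Submodule.span_range_eq_iSup]
    rfl
  | succ n ih =>
    refine (h0 n).trans (sup_le ?_ ?_)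
    · refine (Submodule.map_mono ih).trans ?_
      rw [Submodule.map_iSup]
      exact iSup_mono fun i => M.cyc_u (b i) n
    · refine (Submodule.map_mono ih).trans ?_
      rw [Submodule.map_iSup]
      exact iSup_mono fun i => M.cyc_x (b i) n

/-- The projection to the quotient by `u`. -/
noncomputable def pr (N : GM k p t) : N.T →ₗ[k] N.qu.T := (N.tot N.ufam).mkQ

theorem pr_mem (N : GM k p t) {n : ℕ} {v : N.T} (hv : v ∈ N.D n) : N.pr v ∈ N.qu.D n :=
  ⟨v, hv, rfl⟩

theorem pr_x (N : GM k p t) (v : N.T) : N.pr (N.x v) = N.qu.x (N.pr v) := rfl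

theorem pr_u (N : GM k p t) {n : ℕ} {v : N.T} (hv : v ∈ N.D n) : N.pr (N.u v) = 0 :=
  N.qu_kill n (N.pr v) (N.pr_mem hv)

theorem exists_pr (N : GM k p t) {n : ℕ} {v : N.qu.T} (hv : v ∈ N.qu.D n) :
    ∃ w ∈ N.D n, N.pr w = v := hv

theorem u_pow_mem' (N : GM k p t) {n : ℕ} (i : ℕ) {v : N.T} (hv : v ∈ N.D n) :
    (N.u ^ i) v ∈ N.D (n + i) := by
  induction i with
  | zero => exact hv
  | succ i ih =>
    rw [pow_succ', Module.End.mul_apply]
    exact N.map_u (n + i) ⟨_, ih, rfl⟩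

theorem x_pow_mem' (N : GM k p t) {n : ℕ} (i : ℕ) {v : N.T} (hv : v ∈ N.D n) :
    (N.x ^ i) v ∈ N.D (n + i) := by
  induction i with
  | zero => exact hv
  | succ i ih =>
    rw [pow_succ', Module.End.mul_apply]
    exact N.map_x (n + i) ⟨_, ih, rfl⟩

/-- The piece of degree `p` of the quotient by `u` of a cyclic module. -/
theorem dim_qu_p (N : GM k p t) (m : N.T) (hp2 : 2 ≤ p) (hm0 : m ∈ N.D 0)
    (hgen : N.D p ≤ (N.D (p - 1)).map N.u ⊔ (N.D (p - 1)).map N.x ⊔
      Submodule.span k (Set.range fun l : Fin (p + 1) => N.z l m)) :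
    N.qu.dim p ≤ N.qu.dim (p - 1) + (p - 1) := by
  set S : Submodule k N.qu.T :=
    Submodule.span k (Set.range fun l : Fin (p - 1) => N.pr (N.z (l + 1) m)) with hS
  have hux : ∀ i, 1 ≤ i → ∀ j, ∀ v ∈ N.D j, N.pr ((N.u ^ i) v) = 0 := by
    intro i hi j v hv
    obtain ⟨i, rfl⟩ := Nat.exists_eq_add_of_le' hi
    rw [pow_succ', Module.End.mul_apply]
    exact N.pr_u (N.u_pow_mem' i hv)
  have hz0 : N.pr (N.z 0 m) ∈ (N.qu.D (p - 1)).map N.qu.x := by
    have h1 : N.z 0 m = (N.x ^ p) m - N.x ((N.u ^ (p - 1)) m) + t • (N.u ^ p) m :=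
      congrArg (fun f => f m) N.z_zero
    have h2 : N.x ((N.u ^ (p - 1)) m) = (N.u ^ (p - 1)) (N.x m) := by
      have h3 : N.u ^ (p - 1) * N.x = N.x * N.u ^ (p - 1) :=
        (Commute.pow_left (show Commute N.u N.x from N.ux) (p - 1)).eq
      exact (congrArg (fun f => f m) h3).symm
    have h4 : N.pr (N.z 0 m) = N.pr ((N.x ^ p) m) := by
      rw [h1, map_add, map_sub, map_smul, hux p (by omega) 0 m hm0, h2,
        hux (p - 1) (by omega) 1 (N.x m) (N.map_x 0 ⟨m, hm0, rfl⟩), smul_zero, sub_zero, add_zero]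
    have h5 : (N.x ^ p) m = N.x ((N.x ^ (p - 1)) m) := by
      rw [← Module.End.mul_apply, ← pow_succ', Nat.sub_add_cancel (by omega)]
    rw [h4, h5, pr_x]
    have h6 := N.x_pow_mem' (p - 1) hm0
    rw [Nat.zero_add] at h6
    exact ⟨_, N.pr_mem h6, rfl⟩
  have hle : N.qu.D p ≤ (N.qu.D (p - 1)).map N.qu.x ⊔ S := by
    intro v' hv'
    obtain ⟨v, hv, rfl⟩ := N.exists_pr hv'
    obtain ⟨ab, hab, c, hc, rfl⟩ := Submodule.mem_sup.1 (hgen hv)
    obtain ⟨_, ⟨a, ha, rfl⟩, _, ⟨b, hb, rfl⟩, rfl⟩ := Submodule.mem_sup.1 hab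
    have e1 : N.pr (N.u a) = 0 := N.pr_u ha
    have e2 : N.pr (N.x b) ∈ (N.qu.D (p - 1)).map N.qu.x := ⟨N.pr b, N.pr_mem hb, rfl⟩
    have e3 : N.pr c ∈ (N.qu.D (p - 1)).map N.qu.x ⊔ S := by
      have h3 : Submodule.span k (Set.range fun l : Fin (p + 1) => N.z l m) ≤
          ((N.qu.D (p - 1)).map N.qu.x ⊔ S).comap N.pr := by
        rw [Submodule.span_le]
        rintro _ ⟨l, rfl⟩
        change N.pr (N.z l m) ∈ (N.qu.D (p - 1)).map N.qu.x ⊔ S
        have hlt := l.2
        by_cases hl0 : (l : ℕ) = 0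
        · rw [hl0]
          exact Submodule.mem_sup_left hz0
        · by_cases hlp : (l : ℕ) = p
          · rw [hlp]
            have h1 : N.z p m = (N.u ^ p) m + N.z 1 m - t • N.z 0 m :=
              congrArg (fun f => f m) N.z_last
            rw [h1, map_sub, map_add, map_smul, hux p (by omega) 0 m hm0, zero_add]
            refine Submodule.sub_mem _ ?_ (Submodule.smul_mem _ _ (Submodule.mem_sup_left hz0))
            refine Submodule.mem_sup_right (Submodule.subset_span ⟨⟨0, by omega⟩, rfl⟩)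
          · refine Submodule.mem_sup_right (Submodule.subset_span ⟨⟨l - 1, by omega⟩, ?_⟩)
            change N.pr (N.z (l - 1 + 1) m) = N.pr (N.z l m)
            rw [show (l : ℕ) - 1 + 1 = l by omega]
      exact h3 hc
    rw [map_add, map_add, e1, zero_add]
    exact Submodule.add_mem _ (Submodule.mem_sup_left e2) e3
  have hSfin : FiniteDimensional k S := FiniteDimensional.span_of_finite k (Set.finite_range _)
  have hS1 : finrank k S ≤ p - 1 := by
    have := finrank_range_le_card (R := k) (fun l : Fin (p - 1) => N.pr (N.z (l + 1) m))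
    rwa [Fintype.card_fin] at this
  have h1 : finrank k (N.qu.D p) ≤ finrank k ((N.qu.D (p - 1)).map N.qu.x ⊔ S : Submodule k _) :=
    Submodule.finrank_mono hle
  have h2 := Submodule.finrank_add_le_finrank_add_finrank ((N.qu.D (p - 1)).map N.qu.x) S
  have h3 := Submodule.finrank_map_le N.qu.x (N.qu.D (p - 1))
  change finrank k (N.qu.D p) ≤ finrank k (N.qu.D (p - 1)) + (p - 1)
  omega

/-- A cyclic module on which `u` is injective and which is not bounded has dimension `p (n + 1)`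
in degree `n + (p - 1)`. -/
theorem cyclic_dim' (H : Aniso p t) (N : GM k p t) (m : N.T) (hp2 : 2 ≤ p)
    (hzN : ∀ n, ∀ v ∈ N.D n, N.u v = 0 → v = 0) (hm : N.D 0 = Submodule.span k {m})
    (hgen0 : ∀ n, n + 1 ≠ p → N.D (n + 1) ≤ (N.D n).map N.u ⊔ (N.D n).map N.x)
    (hgenp : N.D p ≤ (N.D (p - 1)).map N.u ⊔ (N.D (p - 1)).map N.x ⊔
      Submodule.span k (Set.range fun l : Fin (p + 1) => N.z l m))
    (hunb : ¬ ∃ C, ∀ n, N.dim n ≤ C) :
    ∀ n, N.dim (n + (p - 1)) = p * (n + 1) := by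
  have hqp := N.dim_qu_p m hp2 (by rw [hm]; exact Submodule.mem_span_singleton_self m) hgenp
  have hgen : ∀ n, n + 1 ≠ p → N.qu.D (n + 1) ≤ (N.qu.D n).map N.qu.x := by
    intro n hn
    refine N.qu.kill_gen N.qu_kill ?_
    intro v' hv'
    obtain ⟨v, hv, rfl⟩ := N.exists_pr hv'
    obtain ⟨_, ⟨a, ha, rfl⟩, _, ⟨b, hb, rfl⟩, rfl⟩ := Submodule.mem_sup.1 (hgen0 n hn hv)
    exact Submodule.mem_sup.2 ⟨_, ⟨_, N.pr_mem ha, rfl⟩, _, ⟨_, N.pr_mem hb, rfl⟩,
      (N.pr.map_add (N.u a) (N.x b)).symm⟩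
  obtain ⟨q, c, hq, -, hle, hev⟩ := uinj H hp2 N hzN p (fun n hn => hgen n (by omega))
  have hdec : ∀ n, n + 1 ≠ p → N.qu.dim (n + 1) ≤ N.qu.dim n := by
    intro n hn
    have h1 : finrank k (N.qu.D (n + 1)) ≤ finrank k ((N.qu.D n).map N.qu.x) :=
      Submodule.finrank_mono (hgen n hn)
    exact h1.trans (Submodule.finrank_map_le _ _)
  have hq0 : q ≠ 0 := by
    rintro rfl
    apply hunb
    obtain ⟨C, hC⟩ := bound_of_eventually N.dim 0 c hev
    exact ⟨C, fun n => by simpa using hC n⟩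
  have hqp' : p ≤ q := Nat.le_of_dvd (by omega) hq
  have hd0 : N.qu.dim 0 ≤ 1 := by
    rw [N.dim_qu_zero]
    unfold dim
    rw [hm]
    exact (finrank_span_le_card ({m} : Set N.T)).trans (by simp)
  have hsmall : ∀ n, n ≤ p - 1 → N.qu.dim n ≤ 1 ∧ N.qu.dim (p - 1) ≤ N.qu.dim n := by
    have h1 : ∀ n, n ≤ p - 1 → N.qu.dim n ≤ 1 := by
      intro n
      induction n with
      | zero => intro _; exact hd0
      | succ n ih => intro hn; exact (hdec n (by omega)).trans (ih (by omega))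
    have h2 : ∀ i, ∀ n, n + i = p - 1 → N.qu.dim (p - 1) ≤ N.qu.dim n := by
      intro i
      induction i with
      | zero => intro n hn; rw [← hn, add_zero]
      | succ i ih =>
        intro n hn
        exact (ih (n + 1) (by omega)).trans (hdec n (by omega))
    exact fun n hn => ⟨h1 n hn, h2 (p - 1 - n) n (by omega)⟩
  have hp1 := (hsmall (p - 1) le_rfl).1
  have hpp := hle p le_rfl
  have e1 : N.qu.dim (p - 1) = 1 := by omega
  have e2 : N.qu.dim p = p := by omega
  have hone : ∀ n, n ≤ p - 1 → N.qu.dim n = 1 := by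
    intro n hn
    have := hsmall n hn
    omega
  have hbig : ∀ n, N.qu.dim (n + p) = p := by
    intro n
    have h1 : N.qu.dim (n + p) ≤ p := by
      induction n with
      | zero => rw [Nat.zero_add]; omega
      | succ n ih =>
        rw [show n + 1 + p = (n + p) + 1 by omega]
        exact (hdec (n + p) (by omega)).trans ih
    have h2 := hle (n + p) (by omega)
    omega
  have hlow : ∀ n, n ≤ p - 1 → N.dim n = n + 1 := by
    intro n
    induction n with
    | zero =>
      intro _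
      rw [← N.dim_qu_zero, hone 0 (Nat.zero_le _)]
    | succ n ih =>
      intro hn
      have h1 := N.dim_qu_succ (hzN n)
      have h2 := hone (n + 1) hn
      have h3 := ih (by omega)
      omega
  intro n
  induction n with
  | zero =>
    rw [Nat.zero_add, hlow (p - 1) le_rfl]
    omega
  | succ n ih =>
    have h1 := N.dim_qu_succ (hzN (n + (p - 1)))
    rw [show n + (p - 1) + 1 = n + p by omega, hbig n, ih] at h1
    rw [show n + 1 + (p - 1) = n + p by omega, ← h1]
    ring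

theorem cyclic_dim (H : Aniso p t) (M : GM k p t) (m : M.T) (hp2 : 2 ≤ p) (hm : m ∈ M.D 0)
    (hz : ∀ n, ∀ v ∈ M.D n, M.u v = 0 → v = 0)
    (hunb : ¬ ∃ C, ∀ n, (M.cycMod m hp2 hm).dim n ≤ C) :
    ∀ n, (M.cycMod m hp2 hm).dim (n + (p - 1)) = p * (n + 1) := by
  refine cyclic_dim' H (M.cycMod m hp2 hm) m hp2 (fun n v hv => hz n v (M.cyc_le m hm n hv)) rfl
    (fun n hn => (M.cyc_succ m hn).le) ?_ hunb
  have h1 : M.cyc m (p - 1 + 1) = (M.cyc m (p - 1)).map M.u ⊔ (M.cyc m (p - 1)).map M.x ⊔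
      Submodule.span k (Set.range fun l : Fin (p + 1) => M.z l m) := by
    rw [cyc, if_pos (by omega)]
  rw [show p - 1 + 1 = p by omega] at h1
  exact h1.le

theorem quot_utor_inj (M : GM k p t) (J : ℕ)
    (hJ : ∀ j, J ≤ j → ∀ n, M.utor j n = M.utor J n) (n : ℕ)
    (v : (M.quot (M.utor J) (M.utor_stable J)).T) (hv : v ∈ (M.quot (M.utor J) (M.utor_stable J)).D n)
    (h0 : (M.quot (M.utor J) (M.utor_stable J)).u v = 0) : v = 0 := by
  obtain ⟨m, hm, rfl⟩ := hv
  have hv' : (M.tot (M.utor J)).mkQ (M.u m) = 0 := h0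
  rw [quot_mk_eq_zero (M.utor_stable J) (n := n + 1) (M.map_u n ⟨m, hm, rfl⟩)] at hv'
  refine (quot_mk_eq_zero (M.utor_stable J) hm).2 ?_
  rw [← hJ (J + 1) (by omega)]
  obtain ⟨h1, h2⟩ := mem_utor.1 hv'
  refine mem_utor.2 ⟨hm, ?_⟩
  rw [pow_succ, Module.End.mul_apply]
  exact h2

theorem main_gen0 (H : Aniso p t) (hp2 : 2 ≤ p) : ∀ r : ℕ, ∀ M : GM k p t, M.Gen0 →
    (∃ C, ∀ n, M.dim n ≤ r * n + C) → Lin p M.dim := by
  intro r
  induction r using Nat.strong_induction_on with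
  | _ r ih =>
  intro M h0 ⟨C, hCb⟩
  obtain ⟨J, hJ⟩ := M.acc h0 M.utor (fun j n => (M.utor_stable j).le n) M.utor_mono
    (fun j n => (M.utor_stable j).u n) (fun j n => (M.utor_stable j).x n)
  have hlin := utor_lin H hp2 M h0 J
  have hJs := M.utor_stable J
  have hdim : ∀ n, (M.quot (M.utor J) hJs).dim n + finrank k (M.utor J n) = M.dim n :=
    dim_quot hJs
  have h0' : (M.quot (M.utor J) hJs).Gen0 := gen0_quot hJs h0
  have hz : ∀ n, ∀ v ∈ (M.quot (M.utor J) hJs).D n, (M.quot (M.utor J) hJs).u v = 0 → v = 0 :=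
    M.quot_utor_inj J hJ
  generalize M.quot (M.utor J) hJs = M' at *
  refine Lin.add ?_ hlin (Eventually.of_forall hdim)
  obtain ⟨q, c, hq, hqc, -, hev⟩ := uinj H hp2 M' hz 0 (fun n _ => by
    refine M'.qu.kill_gen M'.qu_kill (gen0_quot M'.ufam_stable h0' n))
  by_cases hq0 : q = 0
  · subst hq0
    exact ⟨0, c, dvd_zero _, hqc rfl, by simpa using hev⟩
  have hqp : p ≤ q := Nat.le_of_dvd (by omega) hq
  have hbnd : ∀ n, M'.dim n ≤ r * n + C := fun n => by
    have h1 := hdim n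
    have h2 := hCb n
    omega
  obtain ⟨n₀, hn₀⟩ := eventually_atTop.1 hev
  have hqr : q ≤ r := by
    by_contra hcon
    push Not at hcon
    have h1 := hn₀ (n₀ + (C - c + 1).toNat) (by omega)
    have h2 := hbnd (n₀ + (C - c + 1).toNat)
    have h2' : (M'.dim (n₀ + (C - c + 1).toNat) : ℤ) ≤ r * ((n₀ + (C - c + 1).toNat : ℕ) : ℤ) + C := by
      exact_mod_cast h2
    have h3 : ((r : ℤ) + 1) * ((n₀ + (C - c + 1).toNat : ℕ) : ℤ) ≤
        q * ((n₀ + (C - c + 1).toNat : ℕ) : ℤ) := by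
      apply mul_le_mul_of_nonneg_right
      · exact_mod_cast hcon
      · positivity
    have h4 : (C : ℤ) - c + 1 ≤ ((n₀ + (C - c + 1).toNat : ℕ) : ℤ) := by
      push_cast
      have := Int.self_le_toNat (C - c + 1)
      omega
    nlinarith
  -- a cyclic submodule that is not bounded
  let b := Module.finBasis k (M'.D 0)
  have hbspan : M'.D 0 ≤ Submodule.span k (Set.range fun i => (b i : M'.T)) := by
    intro v hv
    have h1 : (⟨v, hv⟩ : M'.D 0) ∈ Submodule.span k (Set.range b) := by rw [b.span_eq]; trivial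
    have h2 := Submodule.mem_map_of_mem (f := (M'.D 0).subtype) h1
    rw [Submodule.map_span, ← Set.range_comp] at h2
    exact h2
  have hex : ∃ i, ¬ ∃ B, ∀ n, (M'.cycMod (b i : M'.T) hp2 (b i).2).dim n ≤ B := by
    by_contra hcon
    push Not at hcon
    choose B hB using hcon
    have hle : ∀ n, M'.dim n ≤ ∑ i, B i := by
      intro n
      have hfin : ∀ i, FiniteDimensional k (M'.cyc (b i : M'.T) n) := fun i =>
        Submodule.finiteDimensional_of_le (M'.cyc_le _ (b i).2 n)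
      have h1 := finrank_iSup_le (fun i => M'.cyc (b i : M'.T) n)
      have h2 : finrank k (M'.D n) ≤ finrank k (⨆ i, M'.cyc (b i : M'.T) n : Submodule k M'.T) :=
        Submodule.finrank_mono (M'.iSup_cyc h0' _ hbspan n)
      exact (h2.trans h1).trans (Finset.sum_le_sum fun i _ => hB i n)
    have h1 := hn₀ (n₀ + ((∑ i, B i : ℕ) - c + 1).toNat) (by omega)
    have h2 := hle (n₀ + ((∑ i, B i : ℕ) - c + 1).toNat)
    have h3 : ((n₀ + ((∑ i, B i : ℕ) - c + 1).toNat : ℕ) : ℤ) ≤
        q * ((n₀ + ((∑ i, B i : ℕ) - c + 1).toNat : ℕ) : ℤ) := by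
      apply le_mul_of_one_le_left
      · positivity
      · exact_mod_cast (by omega : 1 ≤ q)
    have h4 := Int.self_le_toNat ((∑ i, B i : ℕ) - c + 1)
    omega
  obtain ⟨i, hi⟩ := hex
  have hNd := cyclic_dim H M' (b i : M'.T) hp2 (b i).2 hz hi
  have hNlin : Lin p (M'.cycMod (b i : M'.T) hp2 (b i).2).dim := by
    refine ⟨p, p * (2 - p), dvd_rfl, Dvd.intro _ rfl,
      eventually_atTop.2 ⟨p - 1, fun n hn => ?_⟩⟩
    obtain ⟨m, rfl⟩ := Nat.exists_eq_add_of_le' hn
    rw [hNd, Nat.cast_mul, Nat.cast_add, Nat.cast_add, Nat.cast_sub (by omega)]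
    push_cast
    ring
  have hcs := M'.cyc_stable (b i : M'.T) hp2 (b i).2
  have hdim2 : ∀ n, (M'.quot _ hcs).dim n + (M'.cycMod (b i : M'.T) hp2 (b i).2).dim n = M'.dim n :=
    dim_quot hcs
  refine Lin.add (ih (q - p) (by omega) (M'.quot _ hcs) (gen0_quot hcs h0') ?_) hNlin
    (Eventually.of_forall hdim2)
  refine bound_of_eventually _ _ (c - p * (2 - p)) (eventually_atTop.2 ⟨n₀ + (p - 1), fun n hn => ?_⟩)
  have h1 := hn₀ n (by omega)
  have h2 := hdim2 n
  obtain ⟨m, rfl⟩ := Nat.exists_eq_add_of_le' (show p - 1 ≤ n by omega)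
  rw [hNd] at h2
  rw [Nat.cast_sub hqp]
  have h3 : ((M'.quot _ hcs).dim (m + (p - 1)) : ℤ) + p * (m + 1) = M'.dim (m + (p - 1)) := by
    exact_mod_cast h2
  rw [h1] at h3
  rw [Nat.cast_add, Nat.cast_sub (by omega)] at h3 ⊢
  push_cast at h3 ⊢
  linarith

/-- Every graded module has an eventually linear Hilbert function `r n + c` with `p ∣ r` and
`p ∣ c`. -/
theorem lin (H : Aniso p t) (hp2 : 2 ≤ p) (M : GM k p t) : Lin p M.dim := by
  obtain ⟨D, hD⟩ := M.exists_shift_gen0
  refine Lin.of_shift D ?_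
  change Lin p (M.shift D).dim
  have h0 := hD D le_rfl
  generalize M.shift D = M' at *
  -- a crude linear bound
  have key : ∃ r, ∃ C, ∀ n, M'.dim n ≤ r * n + C := by
    obtain ⟨q, -, -, -, hev⟩ := kill H hp2 M'.qu M'.qu_kill 0 (fun n _ =>
      M'.qu.kill_gen M'.qu_kill (gen0_quot M'.ufam_stable h0 n))
    obtain ⟨B, hB⟩ := bound_of_eventually M'.qu.dim 0 q (by simpa using hev)
    refine ⟨B, M'.dim 0, fun n => ?_⟩
    induction n with
    | zero => omega
    | succ n ih =>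
      have h1 := dim_quot M'.ufam_stable (n + 1)
      have h2 : finrank k (M'.ufam (n + 1)) ≤ M'.dim n := Submodule.finrank_map_le _ _
      have h3 := hB (n + 1)
      change M'.qu.dim (n + 1) + finrank k (M'.ufam (n + 1)) = M'.dim (n + 1) at h1
      rw [mul_add, mul_one]
      omega
  obtain ⟨r, hr⟩ := key
  exact main_gen0 H hp2 r _ h0 hr

end GM

/-- The Euler characteristics of all coherent sheaves are divisible by `p`. -/
theorem euler_of_aniso {k : Type} [Field k] {p : ℕ} {t : k} (H : Aniso p t) (hp2 : 2 ≤ p) :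
    Euler p t := by
  intro N
  let M : GM k p t :=
    { pos := by omega
      T := N.T
      u := N.u
      x := N.x
      z := N.z
      ux := N.ux
      uz := N.uz
      xz := N.xz
      z_zero := N.z_zero
      z_last := N.z_last
      zz := N.zz
      D := N.D
      fin := N.fin
      indep := N.internal.submodule_iSupIndep
      map_u := N.map_u
      map_x := N.map_x
      map_z := N.map_z
      gen := by
        obtain ⟨B, hB⟩ := N.gen
        exact ⟨B, fun n hn => (hB n hn).le⟩ }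
  obtain ⟨r, c, -, hc, hev⟩ := GM.lin H hp2 M
  obtain ⟨B, hB⟩ := eventually_atTop.1 hev
  exact ⟨c, hc, r, B, fun n hn => hB n hn⟩

end Pool.Agent.H938.CN
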