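import Pool.Agent.H938.CN.Gr

/-!
# Localisation of graded modules in degree zero
-/

set_option autoImplicit false

namespace Pool.Agent.H938.CN

open Module Filter

section rep

variable {k : Type} [Field k] {T : Type} [AddCommGroup T] [Module k T]

/-- `w` represents the operator `E ^ (-d) W` on the subspace `V`. -/
def Rep (E : End k T) (V : Submodule k T) (d : ℕ) (W : End k T) (w : End k V) : Prop :=
  ∀ m : V, (E ^ d) (w m : T) = W m

variable {E : End k T} {V : Submodule k T} {d d' : ℕ} {W W' : End k T} {w w' : End k V}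

theorem Rep.mul (hc : E * W = W * E) (hW : Rep E V d W w) (hW' : Rep E V d' W' w') :
    Rep E V (d + d') (W * W') (w * w') := by
  intro m
  have h1 := hW (w' m)
  have h2 := hW' m
  have h3 : E ^ d' * W = W * E ^ d' := ((Commute.pow_left (show Commute E W from hc) d')).eq
  have h4 : (E ^ (d + d')) = E ^ d' * E ^ d := by rw [← pow_add, add_comm]
  rw [h4, Module.End.mul_apply, Module.End.mul_apply]
  change (E ^ d') ((E ^ d) (w (w' m) : T)) = W (W' m)
  rw [h1, ← h2, ← Module.End.mul_apply, h3, Module.End.mul_apply]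

theorem Rep.one : Rep E V 0 1 1 := fun _ => rfl

theorem Rep.pow (hc : E * W = W * E) (hW : Rep E V d W w) (i : ℕ) :
    Rep E V (i * d) (W ^ i) (w ^ i) := by
  induction i with
  | zero => rw [zero_mul]; exact Rep.one
  | succ i ih =>
    rw [pow_succ', pow_succ', Nat.succ_mul, add_comm]
    exact Rep.mul hc hW ih

theorem Rep.self : Rep E V 1 E 1 := by
  intro m
  rw [pow_one]; rfl

theorem Rep.add (hW : Rep E V d W w) (hW' : Rep E V d W' w') : Rep E V d (W + W') (w + w') := by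
  intro m
  change (E ^ d) ((w m : T) + (w' m : T)) = W m + W' m
  rw [map_add, hW m, hW' m]

theorem Rep.sub (hW : Rep E V d W w) (hW' : Rep E V d W' w') : Rep E V d (W - W') (w - w') := by
  intro m
  change (E ^ d) ((w m : T) - (w' m : T)) = W m - W' m
  rw [map_sub, hW m, hW' m]

theorem Rep.smul (c : k) (hW : Rep E V d W w) : Rep E V d (c • W) (c • w) := by
  intro m
  change (E ^ d) (c • (w m : T)) = c • W m
  rw [map_smul, hW m]

theorem Rep.unique (hinj : ∀ m ∈ V, (E ^ d) m = 0 → m = 0) (hW : Rep E V d W w)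
    (hW' : Rep E V d W w') : w = w' := by
  refine LinearMap.ext fun m => Subtype.ext ?_
  rw [← sub_eq_zero]
  refine hinj _ (Submodule.sub_mem _ (w m).2 (w' m).2) ?_
  rw [map_sub, hW m, hW' m, sub_self]

/-- Relations hold if they hold on `V`. -/
theorem Rep.congr (h : ∀ m ∈ V, W m = W' m) (hW : Rep E V d W w) : Rep E V d W' w := by
  intro m
  rw [hW m, h m m.2]

end rep

section exist

variable {k : Type} [Field k] {T : Type} [AddCommGroup T] [Module k T]

/-- `E` is bijective from degree `n₀` on. -/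
structure BijFrom (E : End k T) (D : ℕ → Submodule k T) (n₀ : ℕ) : Prop where
  inj : ∀ n, n₀ ≤ n → ∀ m ∈ D n, E m = 0 → m = 0
  mem : ∀ n, n₀ ≤ n → ∀ m ∈ D n, E m ∈ D (n + 1)
  surj : ∀ n, n₀ ≤ n → ∀ m ∈ D (n + 1), ∃ v ∈ D n, E v = m

variable {E : End k T} {D : ℕ → Submodule k T} {n₀ : ℕ}

theorem BijFrom.pow_mem (h : BijFrom E D n₀) (d : ℕ) : ∀ m ∈ D n₀, (E ^ d) m ∈ D (n₀ + d) := by
  induction d with
  | zero => intro m hm; exact hm
  | succ d ih =>
    intro m hm
    rw [pow_succ', Module.End.mul_apply]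
    exact h.mem (n₀ + d) (by omega) _ (ih m hm)

theorem BijFrom.pow_inj (h : BijFrom E D n₀) (d : ℕ) : ∀ m ∈ D n₀, (E ^ d) m = 0 → m = 0 := by
  induction d with
  | zero => intro m hm h0; exact h0
  | succ d ih =>
    intro m hm h0
    rw [pow_succ', Module.End.mul_apply] at h0
    exact ih m hm (h.inj (n₀ + d) (by omega) _ (h.pow_mem d m hm) h0)

theorem BijFrom.pow_surj (h : BijFrom E D n₀) (d : ℕ) :
    ∀ m ∈ D (n₀ + d), ∃ v ∈ D n₀, (E ^ d) v = m := by
  induction d with
  | zero => intro m hm; exact ⟨m, hm, rfl⟩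
  | succ d ih =>
    intro m hm
    obtain ⟨v, hv, rfl⟩ := h.surj (n₀ + d) (by omega) m hm
    obtain ⟨w, hw, rfl⟩ := ih v hv
    exact ⟨w, hw, by rw [pow_succ', Module.End.mul_apply]⟩

theorem BijFrom.exists_rep (h : BijFrom E D n₀) (d : ℕ) (W : End k T)
    (hW : ∀ m ∈ D n₀, W m ∈ D (n₀ + d)) : ∃ w : End k (D n₀), Rep E (D n₀) d W w := by
  let f : D n₀ →ₗ[k] D (n₀ + d) := (E ^ d).restrict (h.pow_mem d)
  have hf : Function.Bijective f := by
    constructor
    · rw [injective_iff_map_eq_zero]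
      intro m hm
      exact Subtype.ext (h.pow_inj d m m.2 (congrArg Subtype.val hm))
    · intro m
      obtain ⟨v, hv, hvm⟩ := h.pow_surj d m m.2
      exact ⟨⟨v, hv⟩, Subtype.ext hvm⟩
  let e := LinearEquiv.ofBijective f hf
  refine ⟨e.symm.toLinearMap ∘ₗ W.restrict hW, fun m => ?_⟩
  have h1 : e (e.symm (W.restrict hW m)) = W.restrict hW m := e.apply_symm_apply _
  exact congrArg Subtype.val h1

end exist

namespace GM

variable {k : Type} [Field k] {p : ℕ} {t : k} (M : GM k p t)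

/-- If `u` is bijective from degree `n₀` on, then the dimension is divisible by `p`. -/
theorem dvd_of_u (H : Aniso p t) {n₀ : ℕ} (hE : BijFrom M.u M.D n₀) : p ∣ M.dim n₀ := by
  obtain ⟨a, ha⟩ := hE.exists_rep 1 M.x (fun m hm => M.map_x n₀ ⟨m, hm, rfl⟩)
  have hb : ∀ j : ℕ, ∃ b : End k (M.D n₀), j ≤ p → Rep M.u (M.D n₀) p (M.z j) b := by
    intro j
    by_cases hj : j ≤ p
    · obtain ⟨b, hb⟩ := hE.exists_rep p (M.z j) (fun m hm => M.map_z j hj n₀ ⟨m, hm, rfl⟩)
      exact ⟨b, fun _ => hb⟩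
    · exact ⟨0, fun h => absurd h hj⟩
  choose b hb using hb
  have hux := M.ux
  have hu : Rep M.u (M.D n₀) 1 M.u 1 := Rep.self
  have hup : Rep M.u (M.D n₀) p (M.u ^ p) 1 := by
    have h1 := Rep.pow (E := M.u) (W := M.u) rfl hu p
    rwa [mul_one, one_pow] at h1
  have hup1 : Rep M.u (M.D n₀) (p - 1) (M.u ^ (p - 1)) 1 := by
    have h1 := Rep.pow (E := M.u) (W := M.u) rfl hu (p - 1)
    rwa [mul_one, one_pow] at h1
  have hxp : Rep M.u (M.D n₀) p (M.x ^ p) (a ^ p) := by
    have h1 := Rep.pow (E := M.u) (W := M.x) hux ha p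
    rwa [mul_one] at h1
  have hxu : Rep M.u (M.D n₀) p (M.x * M.u ^ (p - 1)) a := by
    have h1 := Rep.mul hux ha hup1
    rwa [mul_one, show 1 + (p - 1) = p by have := M.pos; omega] at h1
  have hh : Rep M.u (M.D n₀) p (h p t M.u M.x) (a ^ p - a + t • 1) :=
    (hxp.sub hxu).add (hup.smul t)
  refine dvd_of_ops M.pos H (M.D n₀) a b ?_ ?_ ?_ ?_
  · intro j hj
    refine Rep.unique (hE.pow_inj (1 + p)) (Rep.mul hux ha (hb j hj)) ?_
    rw [M.xz j hj, add_comm]
    exact Rep.mul (M.uz j hj) (hb j hj) ha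
  · refine Rep.unique (hE.pow_inj p) (hb 0 (Nat.zero_le p)) ?_
    rw [M.z_zero]
    exact hh
  · refine Rep.unique (hE.pow_inj p) (hb p le_rfl) ?_
    rw [M.z_last]
    exact (hup.add (hb 1 M.pos)).sub ((hb 0 (Nat.zero_le p)).smul t)
  · intro i j i' j' hi hj hi' hj' hij
    refine Rep.unique (hE.pow_inj (p + p)) (Rep.mul (M.uz i hi) (hb i hi) (hb j hj)) ?_
    rw [M.zz i j i' j' hi hj hi' hj' hij]
    exact Rep.mul (M.uz i' hi') (hb i' hi') (hb j' hj')

/-- If `u` acts as zero and `x` is bijective from degree `n₀` on, then the dimension is divisible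
by `p`. -/
theorem dvd_of_x (H : Aniso p t) (hp2 : 2 ≤ p) (hu : ∀ n, ∀ m ∈ M.D n, M.u m = 0) {n₀ : ℕ}
    (hE : BijFrom M.x M.D n₀) : p ∣ M.dim n₀ := by
  have hb : ∀ j : ℕ, ∃ b : End k (M.D n₀), j ≤ p → Rep M.x (M.D n₀) p (M.z j) b := by
    intro j
    by_cases hj : j ≤ p
    · obtain ⟨b, hb⟩ := hE.exists_rep p (M.z j) (fun m hm => M.map_z j hj n₀ ⟨m, hm, rfl⟩)
      exact ⟨b, fun _ => hb⟩
    · exact ⟨0, fun h => absurd h hj⟩
  choose b hb using hb
  have hupow : ∀ i, 1 ≤ i → ∀ m ∈ M.D n₀, (M.u ^ i) m = 0 := by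
    intro i hi m hm
    obtain ⟨i, rfl⟩ := Nat.exists_eq_add_of_le' hi
    rw [pow_succ, Module.End.mul_apply, hu n₀ m hm, map_zero]
  have hxp : Rep M.x (M.D n₀) p (M.x ^ p) 1 := by
    have h1 := Rep.pow (E := M.x) (W := M.x) rfl (Rep.self (V := M.D n₀)) p
    rwa [mul_one, one_pow] at h1
  have hz0 : b 0 = 1 := by
    refine Rep.unique (hE.pow_inj p) (hb 0 (Nat.zero_le p)) (Rep.congr ?_ hxp)
    intro m hm
    rw [M.z_zero]
    unfold h
    rw [LinearMap.add_apply, LinearMap.sub_apply, LinearMap.smul_apply, Module.End.mul_apply,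
      hupow (p - 1) (by omega) m hm, hupow p (by omega) m hm, map_zero, smul_zero, sub_zero,
      add_zero]
  have hzp : b p = b 1 - t • 1 := by
    have h1 : Rep M.x (M.D n₀) p (M.z p) (b 1 - t • b 0) := by
      refine Rep.congr ?_ ((hb 1 (by omega)).sub ((hb 0 (Nat.zero_le p)).smul t))
      intro m hm
      rw [M.z_last, LinearMap.sub_apply, LinearMap.sub_apply, LinearMap.add_apply,
        hupow p (by omega) m hm, zero_add]
    rw [hz0] at h1
    exact Rep.unique (hE.pow_inj p) (hb p le_rfl) h1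
  have hbb : ∀ i j i' j', i ≤ p → j ≤ p → i' ≤ p → j' ≤ p → i + j = i' + j' →
      b i * b j = b i' * b j' := by
    intro i j i' j' hi hj hi' hj' hij
    refine Rep.unique (hE.pow_inj (p + p)) (Rep.mul (M.xz i hi) (hb i hi) (hb j hj)) ?_
    rw [M.zz i j i' j' hi hj hi' hj' hij]
    exact Rep.mul (M.xz i' hi') (hb i' hi') (hb j' hj')
  have hpow : ∀ j, j ≤ p → b j = b 1 ^ j := by
    intro j
    induction j with
    | zero => intro _; rw [hz0, pow_zero]
    | succ j ih =>
      intro hj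
      have h1 := hbb (j + 1) 0 j 1 hj (Nat.zero_le p) (by omega) (by omega) (by omega)
      rw [hz0, mul_one, ih (by omega)] at h1
      rw [h1, pow_succ]
  refine dvd_of_root H (M.D n₀) (b 1) ?_
  rw [← hpow p le_rfl, hzp]
  abel

end GM

end Pool.Agent.H938.CN
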