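import Pool.Agent.H938.CN.Kill
import Pool.Graph.R_pool_sql_team_seeded_f72693b1.W933.NKC

/-!
# The Hilbert function of a graded module modulo `p`
-/

set_option autoImplicit false

namespace Pool.Agent.H938.CN

open Module Filter

namespace GM

variable {k : Type} [Field k] {p : ℕ} {t : k}

/-- The ascending chain condition for graded submodules. -/
theorem acc (M : GM k p t) (h0 : M.Gen0) (K : ℕ → ℕ → Submodule k M.T)
    (hle : ∀ j n, K j n ≤ M.D n) (hmono : ∀ j n, K j n ≤ K (j + 1) n)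
    (hu : ∀ j n, (K j n).map M.u ≤ K j (n + 1)) (hx : ∀ j n, (K j n).map M.x ≤ K j (n + 1)) :
    ∃ J, ∀ j, J ≤ j → ∀ n, K j n = K J n := by
  have hC := Pool.Agent.W933.NKC.partC
  obtain ⟨J, hJ⟩ := hC k (fun n => M.D n)
    (fun n => M.u.restrict (fun m hm => M.map_u n ⟨m, hm, rfl⟩))
    (fun n => M.x.restrict (fun m hm => M.map_x n ⟨m, hm, rfl⟩))
    (fun n => 0)
    (fun n m => Subtype.ext (congrArg (fun f => f m.1) M.ux))
    (fun n m => by simp) (fun n m => by simp)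
    (fun n => by
      rw [LinearMap.range_zero, sup_bot_eq, eq_top_iff]
      rintro ⟨m, hm⟩ -
      obtain ⟨_, ⟨a, ha, rfl⟩, _, ⟨b, hb, rfl⟩, rfl⟩ := Submodule.mem_sup.1 (h0 n hm)
      exact Submodule.mem_sup.2 ⟨⟨M.u a, M.map_u n ⟨a, ha, rfl⟩⟩, ⟨⟨a, ha⟩, rfl⟩,
        ⟨M.x b, M.map_x n ⟨b, hb, rfl⟩⟩, ⟨⟨b, hb⟩, rfl⟩, rfl⟩)
    (fun j n => (K j n).comap (M.D n).subtype)
    (fun j n => Submodule.comap_mono (hmono j n))
    (fun j n => by
      rintro _ ⟨m, hm, rfl⟩
      exact hu j n ⟨m, hm, rfl⟩)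
    (fun j n => by
      rintro _ ⟨m, hm, rfl⟩
      exact hx j n ⟨m, hm, rfl⟩)
    (fun j n => by
      rintro _ ⟨m, hm, rfl⟩
      exact Submodule.zero_mem _)
  refine ⟨J, fun j hj n => ?_⟩
  have h1 := hJ j hj n
  have h2 : ∀ i, K i n = ((K i n).comap (M.D n).subtype).map (M.D n).subtype := by
    intro i
    rw [Submodule.map_comap_subtype, inf_eq_right.2 (hle i n)]
  rw [h2 j, h2 J, h1]

/-- The part of `K` generated in degrees `≤ j`. -/
def gfam (M : GM k p t) (K : ℕ → Submodule k M.T) (j : ℕ) : ℕ → Submodule k M.T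
  | 0 => K 0
  | n + 1 => if n + 1 ≤ j then K (n + 1) else (gfam M K j n).map M.u ⊔ (gfam M K j n).map M.x

section
variable (M : GM k p t) (K : ℕ → Submodule k M.T)

theorem gfam_of_le (j : ℕ) : ∀ n, n ≤ j → M.gfam K j n = K n := by
  intro n hn
  cases n with
  | zero => rfl
  | succ n => rw [gfam, if_pos hn]

variable (hle : ∀ n, K n ≤ M.D n) (hu : ∀ n, (K n).map M.u ≤ K (n + 1))
  (hx : ∀ n, (K n).map M.x ≤ K (n + 1))

include hu hx in
theorem gfam_le (j n : ℕ) : M.gfam K j n ≤ K n := by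
  induction n with
  | zero => exact le_rfl
  | succ n ih =>
    rw [gfam]
    split_ifs
    · exact le_rfl
    · exact sup_le ((Submodule.map_mono ih).trans (hu n)) ((Submodule.map_mono ih).trans (hx n))

include hu hx in
theorem gfam_mono (j n : ℕ) : M.gfam K j n ≤ M.gfam K (j + 1) n := by
  induction n with
  | zero => exact le_rfl
  | succ n ih =>
    by_cases h : n + 1 ≤ j + 1
    · rw [gfam_of_le M K (j + 1) (n + 1) h]
      exact gfam_le M K hu hx j (n + 1)
    · rw [gfam, gfam, if_neg h, if_neg (by omega)]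
      exact sup_le_sup (Submodule.map_mono ih) (Submodule.map_mono ih)

include hu hx in
theorem gfam_stable (j n : ℕ) : (M.gfam K j n).map M.u ≤ M.gfam K j (n + 1) ∧
    (M.gfam K j n).map M.x ≤ M.gfam K j (n + 1) := by
  by_cases h : n + 1 ≤ j
  · rw [gfam_of_le M K j n (by omega), gfam_of_le M K j (n + 1) h]
    exact ⟨hu n, hx n⟩
  · rw [show M.gfam K j (n + 1) = (M.gfam K j n).map M.u ⊔ (M.gfam K j n).map M.x by
      rw [gfam, if_neg h]]
    exact ⟨le_sup_left, le_sup_right⟩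

include hle hu hx in
theorem event_gen (h0 : M.Gen0) : ∃ N, ∀ n, N ≤ n →
    K (n + 1) ≤ (K n).map M.u ⊔ (K n).map M.x := by
  obtain ⟨J, hJ⟩ := M.acc h0 (M.gfam K) (fun j n => (gfam_le M K hu hx j n).trans (hle n))
    (gfam_mono M K hu hx) (fun j n => (gfam_stable M K hu hx j n).1)
    (fun j n => (gfam_stable M K hu hx j n).2)
  refine ⟨J, fun n hn => ?_⟩
  have h1 : K (n + 1) = M.gfam K J (n + 1) := by
    rw [← hJ (n + 1) (by omega), gfam_of_le M K (n + 1) (n + 1) le_rfl]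
  have h2 : K n = M.gfam K J n := by
    rw [← hJ n hn, gfam_of_le M K n n le_rfl]
  rw [h1, gfam, if_neg (by omega), h2]

end

/-- The elements killed by `u ^ j`. -/
def utor (M : GM k p t) (j n : ℕ) : Submodule k M.T := M.D n ⊓ LinearMap.ker (M.u ^ j)

theorem mem_utor {M : GM k p t} {j n : ℕ} {m : M.T} :
    m ∈ M.utor j n ↔ m ∈ M.D n ∧ (M.u ^ j) m = 0 := Iff.rfl

theorem utor_stable (M : GM k p t) (j : ℕ) : M.Stable (M.utor j) where
  le n := inf_le_left
  u n := by
    rintro _ ⟨m, hm, rfl⟩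
    obtain ⟨h1, h2⟩ := mem_utor.1 hm
    refine mem_utor.2 ⟨M.map_u n ⟨m, h1, rfl⟩, ?_⟩
    rw [← Module.End.mul_apply, ← pow_succ, pow_succ', Module.End.mul_apply, h2, map_zero]
  x n := by
    rintro _ ⟨m, hm, rfl⟩
    obtain ⟨h1, h2⟩ := mem_utor.1 hm
    refine mem_utor.2 ⟨M.map_x n ⟨m, h1, rfl⟩, ?_⟩
    have h3 : M.u ^ j * M.x = M.x * M.u ^ j := (Commute.pow_left (show Commute M.u M.x from M.ux) j).eq
    rw [← Module.End.mul_apply, h3, Module.End.mul_apply, h2, map_zero]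
  z i hi n := by
    rintro _ ⟨m, hm, rfl⟩
    obtain ⟨h1, h2⟩ := mem_utor.1 hm
    refine mem_utor.2 ⟨M.map_z i hi n ⟨m, h1, rfl⟩, ?_⟩
    have h3 : M.u ^ j * M.z i = M.z i * M.u ^ j :=
      (Commute.pow_left (show Commute M.u (M.z i) from M.uz i hi) j).eq
    rw [← Module.End.mul_apply, h3, Module.End.mul_apply, h2, map_zero]

theorem utor_mono (M : GM k p t) (j n : ℕ) : M.utor j n ≤ M.utor (j + 1) n := by
  intro m hm
  obtain ⟨h1, h2⟩ := mem_utor.1 hm
  refine mem_utor.2 ⟨h1, ?_⟩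
  rw [pow_succ', Module.End.mul_apply, h2, map_zero]

theorem u_mem_utor {M : GM k p t} {j n : ℕ} {m : M.T} (hm : m ∈ M.utor (j + 1) n) :
    M.u m ∈ M.utor j (n + 1) := by
  obtain ⟨h1, h2⟩ := mem_utor.1 hm
  refine mem_utor.2 ⟨M.map_u n ⟨m, h1, rfl⟩, ?_⟩
  rw [pow_succ, Module.End.mul_apply] at h2
  exact h2

theorem kill_quot (A : GM k p t) (K : ℕ → Submodule k A.T) (hK : A.Stable K)
    (h : ∀ n, ∀ m ∈ A.D n, A.u m ∈ K (n + 1)) :
    ∀ n, ∀ m ∈ (A.quot K hK).D n, (A.quot K hK).u m = 0 := by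
  rintro n _ ⟨m, hm, rfl⟩
  change (A.tot K).mkQ (A.u m) = 0
  rw [Submodule.mkQ_apply, Submodule.Quotient.mk_eq_zero]
  exact (le_iSup K (n + 1)) (h n m hm)

theorem utor_lin (H : Aniso p t) (hp2 : 2 ≤ p) (M : GM k p t) (h0 : M.Gen0) (j : ℕ) :
    Lin p fun n => finrank k (M.utor j n) := by
  induction j with
  | zero =>
    refine Lin.const (dvd_zero p) (Eventually.of_forall fun n => ?_)
    have : M.utor 0 n = ⊥ := by
      rw [eq_bot_iff]
      intro m hm
      exact (mem_utor.1 hm).2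
    rw [this, finrank_bot]
  | succ j ih =>
    have hs := M.utor_stable (j + 1)
    have hg := event_gen M (M.utor (j + 1)) hs.le hs.u hs.x h0
    set A := M.sub (M.utor (j + 1)) hs hg with hA
    have hB : A.Stable (M.utor j) :=
      ⟨fun n => M.utor_mono j n, (M.utor_stable j).u, (M.utor_stable j).x, (M.utor_stable j).z⟩
    refine Lin.add (kill_lin H hp2 (A.quot _ hB) (kill_quot A _ hB ?_)) ih
      (Eventually.of_forall fun n => ?_)
    · exact fun n m hm => u_mem_utor (M := M) hm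
    · exact dim_quot hB n

/-- The submodule generated by an element of degree `0`. -/
def cyc (M : GM k p t) (m : M.T) : ℕ → Submodule k M.T
  | 0 => Submodule.span k {m}
  | n + 1 => (cyc M m n).map M.u ⊔ (cyc M m n).map M.x ⊔
      (if n + 1 = p then Submodule.span k (Set.range fun l : Fin (p + 1) => M.z l m) else ⊥)

section cyc

variable (M : GM k p t) (m : M.T)

theorem cyc_u (n : ℕ) : (M.cyc m n).map M.u ≤ M.cyc m (n + 1) := by
  rw [cyc]; exact le_sup_of_le_left le_sup_left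

theorem cyc_x (n : ℕ) : (M.cyc m n).map M.x ≤ M.cyc m (n + 1) := by
  rw [cyc]; exact le_sup_of_le_left le_sup_right

theorem cyc_succ {n : ℕ} (hn : n + 1 ≠ p) :
    M.cyc m (n + 1) = (M.cyc m n).map M.u ⊔ (M.cyc m n).map M.x := by
  rw [cyc, if_neg hn, sup_bot_eq]

theorem z_mem_cyc {l : ℕ} (hl : l ≤ p) : M.z l m ∈ M.cyc m p := by
  have key : ∀ n, n + 1 = p → M.z l m ∈ M.cyc m (n + 1) := by
    intro n hn
    rw [cyc, if_pos hn]
    exact Submodule.mem_sup_right (Submodule.subset_span ⟨⟨l, by omega⟩, rfl⟩)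
  have h1 := key (p - 1) (by have := M.pos; omega)
  rwa [show p - 1 + 1 = p by have := M.pos; omega] at h1

theorem u_pow_mem {n : ℕ} (i : ℕ) {v : M.T} (hv : v ∈ M.cyc m n) :
    (M.u ^ i) v ∈ M.cyc m (n + i) := by
  induction i with
  | zero => exact hv
  | succ i ih =>
    rw [pow_succ', Module.End.mul_apply]
    exact M.cyc_u m (n + i) ⟨_, ih, rfl⟩

theorem x_pow_mem {n : ℕ} (i : ℕ) {v : M.T} (hv : v ∈ M.cyc m n) :
    (M.x ^ i) v ∈ M.cyc m (n + i) := by
  induction i with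
  | zero => exact hv
  | succ i ih =>
    rw [pow_succ', Module.End.mul_apply]
    exact M.cyc_x m (n + i) ⟨_, ih, rfl⟩

theorem h_mem {n : ℕ} {v : M.T} (hv : v ∈ M.cyc m n) : (h p t M.u M.x) v ∈ M.cyc m (n + p) := by
  unfold h
  rw [LinearMap.add_apply, LinearMap.sub_apply, LinearMap.smul_apply, Module.End.mul_apply]
  refine Submodule.add_mem _ (Submodule.sub_mem _ (M.x_pow_mem m p hv) ?_)
    (Submodule.smul_mem _ _ (M.u_pow_mem m p hv))
  have h1 := M.cyc_x m (n + (p - 1)) ⟨_, M.u_pow_mem m (p - 1) hv, rfl⟩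
  rwa [show n + (p - 1) + 1 = n + p by have := M.pos; omega] at h1

theorem zz_mem (hp2 : 2 ≤ p) : ∀ s i j, i ≤ p → j ≤ p → i + j = s →
    M.z i (M.z j m) ∈ M.cyc m (p + p) := by
  intro s
  induction s using Nat.strong_induction_on with
  | _ s ih =>
    intro i j hi hj hij
    by_cases hs : s ≤ p
    · have h1 := M.zz i j 0 s hi hj (Nat.zero_le p) hs (by omega)
      have h2 : M.z i (M.z j m) = M.z 0 (M.z s m) := congrArg (fun f => f m) h1
      rw [h2, M.z_zero]
      exact M.h_mem m (M.z_mem_cyc m hs)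
    · have h1 := M.zz i j (s - p) p hi hj (by omega) le_rfl (by omega)
      have h2 : M.z i (M.z j m) = M.z (s - p) (M.z p m) := congrArg (fun f => f m) h1
      rw [h2, M.z_last, LinearMap.sub_apply, LinearMap.add_apply, LinearMap.smul_apply, map_sub,
        map_add, map_smul]
      refine Submodule.sub_mem _ (Submodule.add_mem _ ?_ ?_) (Submodule.smul_mem _ _ ?_)
      · have h3 : M.u ^ p * M.z (s - p) = M.z (s - p) * M.u ^ p :=
          (Commute.pow_left (show Commute M.u (M.z (s - p)) from M.uz _ (by omega)) p).eq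
        rw [← Module.End.mul_apply, ← h3, Module.End.mul_apply]
        exact M.u_pow_mem m p (M.z_mem_cyc m (by omega))
      · exact ih (s - p + 1) (by omega) (s - p) 1 (by omega) (by omega) rfl
      · exact ih (s - p) (by omega) (s - p) 0 (by omega) (by omega) rfl

theorem cyc_z (hp2 : 2 ≤ p) (j : ℕ) (hj : j ≤ p) :
    ∀ n, (M.cyc m n).map (M.z j) ≤ M.cyc m (n + p) := by
  intro n
  induction n with
  | zero =>
    rintro _ ⟨v, hv, rfl⟩
    obtain ⟨c, rfl⟩ := Submodule.mem_span_singleton.1 hv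
    rw [map_smul, Nat.zero_add]
    exact Submodule.smul_mem _ _ (M.z_mem_cyc m hj)
  | succ n ih =>
    rw [Submodule.map_le_iff_le_comap]
    conv_lhs => rw [cyc]
    refine sup_le (sup_le ?_ ?_) ?_
    · rintro _ ⟨v, hv, rfl⟩
      have h1 : M.z j (M.u v) = M.u (M.z j v) := (congrArg (fun f => f v) (M.uz j hj)).symm
      rw [Submodule.mem_comap, h1, show n + 1 + p = (n + p) + 1 by omega]
      exact M.cyc_u m (n + p) ⟨_, ih ⟨v, hv, rfl⟩, rfl⟩
    · rintro _ ⟨v, hv, rfl⟩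
      have h1 : M.z j (M.x v) = M.x (M.z j v) := (congrArg (fun f => f v) (M.xz j hj)).symm
      rw [Submodule.mem_comap, h1, show n + 1 + p = (n + p) + 1 by omega]
      exact M.cyc_x m (n + p) ⟨_, ih ⟨v, hv, rfl⟩, rfl⟩
    · split_ifs with hn
      · rw [Submodule.span_le]
        rintro _ ⟨l, rfl⟩
        rw [hn]
        exact M.zz_mem m hp2 (j + l) j l hj (by have := l.2; omega) rfl
      · exact bot_le

theorem cyc_le (hm : m ∈ M.D 0) (n : ℕ) : M.cyc m n ≤ M.D n := by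
  induction n with
  | zero =>
    rw [cyc, Submodule.span_le]
    rintro _ rfl
    exact hm
  | succ n ih =>
    rw [cyc]
    refine sup_le (sup_le ((Submodule.map_mono ih).trans (M.map_u n))
      ((Submodule.map_mono ih).trans (M.map_x n))) ?_
    split_ifs with hn
    · rw [Submodule.span_le]
      rintro _ ⟨l, rfl⟩
      have h1 := M.map_z l (by have := l.2; omega) 0 ⟨m, hm, rfl⟩
      rw [Nat.zero_add] at h1
      rw [hn]
      exact h1
    · exact bot_le

theorem cyc_stable (hp2 : 2 ≤ p) (hm : m ∈ M.D 0) : M.Stable (M.cyc m) :=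
  ⟨M.cyc_le m hm, M.cyc_u m, M.cyc_x m, fun j hj => M.cyc_z m hp2 j hj⟩

/-- The cyclic submodule. -/
def cycMod (hp2 : 2 ≤ p) (hm : m ∈ M.D 0) : GM k p t :=
  M.sub (M.cyc m) (M.cyc_stable m hp2 hm) ⟨p, fun n hn => (M.cyc_succ m (by omega)).le⟩

end cyc

end GM

end Pool.Agent.H938.CN
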