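import Pool.Agent.H938.CN.Defs

/-!
# Finite-dimensional modules over the affine coordinate rings of the curve
-/

set_option autoImplicit false

namespace Pool.Agent.H938.CN

open Module

section

variable {k : Type} [Field k]

/-- There are no points over extensions of degree prime to `p`: the form `h` has no zero and the
curve has no affine point. -/
def Aniso (p : ℕ) (t : k) : Prop :=
  ∀ (L : Type) [Field L] [Algebra k L] [FiniteDimensional k L], ¬ p ∣ finrank k L →
    (∀ y : L, y ^ p - y + algebraMap k L t ≠ 0) ∧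
    ∀ x y : L, (x ^ p - x + algebraMap k L t) * (y ^ p - y + algebraMap k L t) ≠ 1

theorem dvd_of_maximal (p : ℕ) (R : Type) [CommRing R] [Algebra k R]
    (hR : ∀ m : Ideal R, m.IsMaximal → FiniteDimensional k (R ⧸ m) → p ∣ finrank k (R ⧸ m)) :
    ∀ (n : ℕ) (W : Type) [AddCommGroup W] [Module k W] [Module R W] [IsScalarTower k R W]
      [FiniteDimensional k W], finrank k W = n → p ∣ finrank k W := by
  intro n
  induction n using Nat.strong_induction_on with
  | _ n ih =>
    intro W _ _ _ _ _ hn
    have : IsNoetherian k W := inferInstance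
    have : IsNoetherian R W := isNoetherian_of_tower k this
    rcases eq_top_or_exists_le_coatom (⊥ : Submodule R W) with h | ⟨W', hW', -⟩
    · have hsub : Subsingleton W := by
        rw [← Submodule.subsingleton_iff R]
        exact subsingleton_of_bot_eq_top h
      rw [finrank_zero_of_subsingleton]
      exact dvd_zero p
    · have hs : IsSimpleModule R (W ⧸ W') := isSimpleModule_iff_isCoatom.2 hW'
      obtain ⟨I, hI, ⟨e⟩⟩ := isSimpleModule_iff_quot_maximal.1 hs
      let q : W →ₗ[k] (W ⧸ W') := (W'.mkQ).restrictScalars k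
      have hq : Function.Surjective q := W'.mkQ_surjective
      have : FiniteDimensional k (W ⧸ W') := Module.Finite.of_surjective q hq
      let e' : (W ⧸ W') ≃ₗ[k] (R ⧸ I) := e.restrictScalars k
      have : FiniteDimensional k (R ⧸ I) := Module.Finite.equiv e'
      have h1 : p ∣ finrank k (W ⧸ W') := by
        rw [e'.finrank_eq]
        exact hR I hI inferInstance
      let j : W' →ₗ[k] W := (W'.subtype).restrictScalars k
      have hj : Function.Injective j := W'.injective_subtype
      have : FiniteDimensional k W' := Module.Finite.of_injective j hj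
      have hker : LinearMap.ker q = LinearMap.range j := by
        ext w
        constructor
        · intro hw
          have : w ∈ W' := (Submodule.Quotient.mk_eq_zero W').1 hw
          exact ⟨⟨w, this⟩, rfl⟩
        · rintro ⟨w, rfl⟩
          exact (Submodule.Quotient.mk_eq_zero W').2 w.2
      have h2 : finrank k (W ⧸ W') + finrank k W' = finrank k W := by
        have h3 := LinearMap.finrank_range_add_finrank_ker q
        rw [LinearMap.range_eq_top.2 hq, finrank_top, hker, LinearMap.finrank_range_of_inj hj] at h3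
        exact h3
      have : Nontrivial (R ⧸ I) := Ideal.Quotient.nontrivial_iff.2 hI.ne_top
      have h4 : 0 < finrank k (W ⧸ W') := by
        rw [e'.finrank_eq]
        exact finrank_pos
      have h5 : p ∣ finrank k W' := ih (finrank k W') (by omega) W' rfl
      rw [← h2]
      exact dvd_add h1 h5

/-- A finite-dimensional space with an operator `b` such that `b ^ p - b + t = 0` has dimension
divisible by `p`. -/
theorem dvd_of_root {p : ℕ} {t : k} (H : Aniso p t) (V : Type) [AddCommGroup V] [Module k V]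
    [FiniteDimensional k V] (b : End k V) (hb : b ^ p - b + t • 1 = 0) : p ∣ finrank k V := by
  have hcomm : ∀ x ∈ ({b} : Set (End k V)), ∀ y ∈ ({b} : Set (End k V)), x * y = y * x := by
    rintro x rfl y rfl
    rfl
  let : CommRing (Algebra.adjoin k ({b} : Set (End k V))) := Algebra.adjoinCommRingOfComm k hcomm
  refine dvd_of_maximal p (Algebra.adjoin k ({b} : Set (End k V))) ?_ _ V rfl
  intro m hm hfin
  let : Field (Algebra.adjoin k ({b} : Set (End k V)) ⧸ m) := Ideal.Quotient.field m
  by_contra hnd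
  let b' : Algebra.adjoin k ({b} : Set (End k V)) := ⟨b, Algebra.subset_adjoin (by simp)⟩
  have hb' : b' ^ p - b' + t • 1 = 0 := Subtype.ext hb
  refine (H (Algebra.adjoin k ({b} : Set (End k V)) ⧸ m) hnd).1 (Ideal.Quotient.mk m b') ?_
  have h1 := congrArg (Ideal.Quotient.mk m) hb'
  rw [Algebra.smul_def] at h1
  simp only [map_add, map_sub, map_mul, map_pow, map_zero, map_one, mul_one] at h1
  exact h1

/-- A finite-dimensional module over the affine coordinate ring of `C` in the chart `u = 1` has
dimension divisible by `p`. -/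
theorem dvd_of_ops {p : ℕ} (hp : 0 < p) {t : k} (H : Aniso p t) (V : Type) [AddCommGroup V]
    [Module k V] [FiniteDimensional k V] (a : End k V) (b : ℕ → End k V)
    (hab : ∀ j ≤ p, a * b j = b j * a)
    (h0 : b 0 = a ^ p - a + t • 1) (hl : b p = 1 + b 1 - t • b 0)
    (hbb : ∀ i j i' j', i ≤ p → j ≤ p → i' ≤ p → j' ≤ p → i + j = i' + j' →
      b i * b j = b i' * b j') : p ∣ finrank k V := by
  set S : Set (End k V) := insert a (b '' Set.Iic p) with hS
  have hcomm : ∀ x ∈ S, ∀ y ∈ S, x * y = y * x := by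
    rintro x (rfl | ⟨i, hi, rfl⟩) y (rfl | ⟨j, hj, rfl⟩)
    · rfl
    · exact hab j hj
    · exact (hab i hi).symm
    · exact hbb i j j i hi hj hj hi (add_comm i j)
  let : CommRing (Algebra.adjoin k S) := Algebra.adjoinCommRingOfComm k hcomm
  refine dvd_of_maximal p (Algebra.adjoin k S) ?_ _ V rfl
  intro m hm hfin
  let : Field (Algebra.adjoin k S ⧸ m) := Ideal.Quotient.field m
  by_contra hnd
  have hbS : ∀ j ≤ p, b j ∈ Algebra.adjoin k S := fun j hj =>
    Algebra.subset_adjoin (Set.mem_insert_of_mem _ ⟨j, hj, rfl⟩)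
  let a' : Algebra.adjoin k S := ⟨a, Algebra.subset_adjoin (Set.mem_insert _ _)⟩
  let π := Ideal.Quotient.mk m
  obtain ⟨H1, H2⟩ := H (Algebra.adjoin k S ⧸ m) hnd
  set α := π a' with hα
  have e0 : π ⟨b 0, hbS 0 (Nat.zero_le p)⟩ = α ^ p - α + algebraMap k _ t := by
    have h1 : (⟨b 0, hbS 0 (Nat.zero_le p)⟩ : Algebra.adjoin k S) = a' ^ p - a' + t • 1 :=
      Subtype.ext h0
    rw [h1, Algebra.smul_def]
    simp only [map_add, map_sub, map_mul, map_pow, map_one, mul_one]
    rfl
  have e0' : π ⟨b 0, hbS 0 (Nat.zero_le p)⟩ ≠ 0 := by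
    rw [e0]
    exact H1 α
  set β0 := π ⟨b 0, hbS 0 (Nat.zero_le p)⟩ with hβ0
  set y := π ⟨b 1, hbS 1 hp⟩ / β0 with hy
  have hyj : ∀ j (hj : j ≤ p), π ⟨b j, hbS j hj⟩ = β0 * y ^ j := by
    intro j
    induction j with
    | zero => intro hj; rw [pow_zero, mul_one]
    | succ j ih =>
      intro hj
      have h1 : (⟨b (j + 1), hbS (j + 1) hj⟩ : Algebra.adjoin k S) * ⟨b 0, hbS 0 (Nat.zero_le p)⟩ =
          ⟨b j, hbS j (by omega)⟩ * ⟨b 1, hbS 1 hp⟩ :=
        Subtype.ext (hbb (j + 1) 0 j 1 hj (Nat.zero_le p) (by omega) hp (by omega))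
      have h2 := congrArg π h1
      rw [map_mul, map_mul, ih (by omega), ← hβ0] at h2
      have h3 : π ⟨b 1, hbS 1 hp⟩ = y * β0 := by
        rw [hy, div_mul_cancel₀ _ e0']
      rw [h3] at h2
      apply mul_right_cancel₀ e0'
      rw [h2, pow_succ]
      ring
  have hlast : π ⟨b p, hbS p le_rfl⟩ = 1 + π ⟨b 1, hbS 1 hp⟩ - algebraMap k _ t * β0 := by
    have h1 : (⟨b p, hbS p le_rfl⟩ : Algebra.adjoin k S) = 1 + ⟨b 1, hbS 1 hp⟩ -
        t • ⟨b 0, hbS 0 (Nat.zero_le p)⟩ := Subtype.ext hl
    rw [h1, Algebra.smul_def]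
    simp only [map_add, map_sub, map_mul, map_one]
    rfl
  refine H2 α y ?_
  rw [← e0]
  have h1 := hyj p le_rfl
  have h2 := hyj 1 hp
  rw [pow_one] at h2
  rw [h2] at hlast
  rw [h1] at hlast
  linear_combination hlast

end

end Pool.Agent.H938.CN
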