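import Pool.Agent.H938.CN.Ops

/-!
# Points over extensions of degree prime to `p`
-/

set_option autoImplicit false

namespace Pool.Agent.H938.CN

open IsDedekindDomain WithZero Module

/-- An extension of degree prime to the characteristic is separable. -/
theorem separable_of_degree (p : ℕ) [Fact p.Prime] (K L : Type) [Field K] [Field L] [CharP K p]
    [Algebra K L] [FiniteDimensional K L] (hn : ¬ p ∣ finrank K L) : Algebra.IsSeparable K L := by
  have : ExpChar K p := ExpChar.prime Fact.out
  rw [isSeparable_iff_finInsepDegree_eq_one]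
  obtain ⟨m, hm⟩ := finInsepDegree_eq_pow K L p
  have h := Field.finSepDegree_mul_finInsepDegree K L
  rcases m with _ | m
  · simpa using hm
  · exfalso
    apply hn
    rw [← h, hm, pow_succ]
    exact ⟨Field.finSepDegree K L * p ^ m, by ring⟩

/-- There is a discrete valuation on `L` with value at `π` prime to `p`. -/
theorem exists_val (p : ℕ) [Fact p.Prime] (R : Type) [CommRing R] [IsDomain R]
    [IsDiscreteValuationRing R] (k : Type) [Field k] [Algebra R k] [IsFractionRing R k] [CharP k p]
    (π : R) (hπ : Irreducible π) (L : Type) [Field L] [Algebra k L] [FiniteDimensional k L]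
    (hn : ¬ p ∣ finrank k L) :
    ∃ (v : Valuation L ℤᵐ⁰) (e : ℕ), ¬ p ∣ e ∧
      v (algebraMap k L (algebraMap R k π)) = exp (-(e : ℤ)) := by
  classical
  have : Algebra.IsSeparable k L := separable_of_degree p _ _ hn
  let : Algebra R L := ((algebraMap k L).comp (algebraMap R k)).toAlgebra
  have : IsScalarTower R k L := IsScalarTower.of_algebraMap_eq (fun _ => rfl)
  have : Module.IsTorsionFree R L := by
    rw [Module.isTorsionFree_iff_algebraMap_injective]
    exact (algebraMap k L).injective.comp (IsFractionRing.injective R k)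
  let B := integralClosure R L
  have : Module.IsTorsionFree R B := Subalgebra.instIsTorsionFree B
  have : IsDedekindDomain B := integralClosure.isDedekindDomain R k L
  have : IsFractionRing B L := integralClosure.isFractionRing_of_finite_extension k L
  have : Module.Finite R B := IsIntegralClosure.finite R k L B
  have hXp : Prime π := hπ.prime
  have hX0 : (Ideal.span {π}) ≠ ⊥ := by
    rw [Ne, Ideal.span_singleton_eq_bot]
    exact hXp.ne_zero
  have hXprime : (Ideal.span {π}).IsPrime := (Ideal.span_singleton_prime hXp.ne_zero).mpr hXp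
  have hXmax : (Ideal.span {π}).IsMaximal := hXprime.isMaximal hX0
  have hsum := Ideal.sum_ramification_inertia B k L (p := Ideal.span {π}) hX0
  obtain ⟨P, hP, hPe⟩ : ∃ P ∈ IsDedekindDomain.primesOverFinset (Ideal.span {π}) B,
      ¬ p ∣ Ideal.ramificationIdx' (Ideal.span {π}) P := by
    by_contra hcon
    push Not at hcon
    apply hn
    rw [← hsum]
    exact Finset.dvd_sum fun P hP => (hcon P hP).mul_right _
  rw [IsDedekindDomain.mem_primesOverFinset_iff hX0] at hP
  obtain ⟨hP1, hP2⟩ := hP
  have hP0 : P ≠ ⊥ := Ideal.ne_bot_of_liesOver_of_ne_bot hX0 P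
  let v0 : HeightOneSpectrum R := ⟨Ideal.span {π}, hXprime, hX0⟩
  let w : HeightOneSpectrum B := ⟨P, hP1, hP0⟩
  have : w.asIdeal.LiesOver v0.asIdeal := hP2
  refine ⟨w.valuation L, Ideal.ramificationIdx' (Ideal.span {π}) P, hPe, ?_⟩
  have h1 := HeightOneSpectrum.valuation_liesOver (K := k) L v0 w (algebraMap R k π)
  rw [← h1]
  have h2 : v0.valuation k (algebraMap R k π) = exp (-1 : ℤ) := by
    have h3 : v0.valuation k (algebraMap R k π) = v0.intValuation π :=
      HeightOneSpectrum.valuation_of_algebraMap (K := k) v0 π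
    rw [h3]
    exact HeightOneSpectrum.intValuation_singleton v0 hXp.ne_zero rfl
  rw [h2]
  show exp (-1 : ℤ) ^ (Ideal.ramificationIdx' (Ideal.span {π}) P) = _
  rw [← exp_nsmul]
  simp

/-- The value of `x ^ p - x + t` is at least the value of `t`. -/
theorem le_val (p : ℕ) [Fact p.Prime] (L : Type) [Field L] (v : Valuation L ℤᵐ⁰) (e : ℕ)
    (he : ¬ p ∣ e) (t : L) (ht : v t = exp (e : ℤ)) (x : L) :
    exp (e : ℤ) ≤ v (x ^ p - x + t) := by
  have hp : p.Prime := Fact.out
  have he0 : 0 < e := Nat.pos_of_ne_zero (fun h => he (h ▸ dvd_zero p))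
  have h1e : (1 : ℤᵐ⁰) < exp (e : ℤ) := by
    rw [← exp_zero, exp_lt_exp]
    exact_mod_cast he0
  rcases le_or_gt (v x) 1 with hx | hx
  · -- `x` is integral
    have h1 : v (x ^ p - x) ≤ 1 := by
      refine (Valuation.map_sub v _ _).trans (max_le ?_ hx)
      rw [map_pow]
      exact pow_le_one' hx p
    have h2 : v (x ^ p - x) < v t := by rw [ht]; exact h1.trans_lt h1e
    rw [Valuation.map_add_eq_of_lt_right v h2, ht]
  · have hx0 : v x ≠ 0 := ne_of_gt (zero_lt_one.trans hx)
    have hlt : v x < v (x ^ p) := by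
      rw [map_pow]
      calc v x = v x ^ 1 := (pow_one _).symm
        _ < v x ^ p := pow_lt_pow_right₀ hx hp.one_lt
    have h3 : v (x ^ p - x) = v (x ^ p) := Valuation.map_sub_eq_of_lt_left v hlt
    have hne : v (x ^ p - x) ≠ v t := by
      rw [h3, ht, map_pow, ← exp_log hx0, ← exp_nsmul, Ne, exp_inj]
      intro h
      apply he
      have h4 : (p : ℤ) ∣ (e : ℤ) := ⟨log (v x), by rw [← h]; simp⟩
      exact_mod_cast h4
    rcases lt_or_gt_of_ne hne with h | h
    · rw [Valuation.map_add_eq_of_lt_right v h, ht]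
    · rw [Valuation.map_add_eq_of_lt_left v h, ← ht]
      exact h.le

theorem aniso (p : ℕ) [Fact p.Prime] (R : Type) [CommRing R] [IsDomain R]
    [IsDiscreteValuationRing R] (k : Type) [Field k] [Algebra R k] [IsFractionRing R k] [CharP k p]
    (π : R) (hπ : Irreducible π) : Aniso p (algebraMap R k π)⁻¹ := by
  intro L _ _ _ hn
  obtain ⟨v, e, he, hv⟩ := exists_val p R k π hπ L hn
  have he0 : 0 < e := Nat.pos_of_ne_zero (fun h => he (h ▸ dvd_zero p))
  have ht : v (algebraMap k L (algebraMap R k π)⁻¹) = exp (e : ℤ) := by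
    rw [map_inv₀, map_inv₀, hv, ← exp_neg, neg_neg]
  have h1e : (1 : ℤᵐ⁰) < exp (e : ℤ) := by
    rw [← exp_zero, exp_lt_exp]
    exact_mod_cast he0
  constructor
  · intro y hy
    have h1 := le_val p L v e he _ ht y
    rw [hy, map_zero] at h1
    exact absurd h1 (not_le.2 (zero_lt_one.trans h1e))
  · intro x y hxy
    have h1 := le_val p L v e he _ ht x
    have h2 := le_val p L v e he _ ht y
    have h3 : v ((x ^ p - x + algebraMap k L (algebraMap R k π)⁻¹) *
        (y ^ p - y + algebraMap k L (algebraMap R k π)⁻¹)) = 1 := by rw [hxy, map_one]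
    rw [map_mul] at h3
    have h4 := mul_le_mul' h1 h2
    rw [h3] at h4
    have h5 : (1 : ℤᵐ⁰) < exp (e : ℤ) * exp (e : ℤ) := by
      calc (1 : ℤᵐ⁰) < exp (e : ℤ) := h1e
        _ = exp (e : ℤ) * 1 := (mul_one _).symm
        _ ≤ exp (e : ℤ) * exp (e : ℤ) := mul_le_mul' le_rfl h1e.le
    exact absurd h4 (not_le.2 h5)

end Pool.Agent.H938.CN
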